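import Pool.Agent.R806.Osc.SL2

/-!
# Reduction of the weight system to polynomials in the Casimir element
-/

set_option autoImplicit false
set_option linter.unusedSectionVars false

namespace Pool.Agent.R806.Osc

open Finset Polynomial

section Red
variable {L : Type} [Fintype L] [DecidableEq L] {A : Type} [Ring A] [Algebra ℂ A]

/-- The sum over all assignments of elements of the frame to the labels. -/
def W3 (g : Fin 3 → A) (s : List L) : A := ∑ ψ : L → Fin 3, (s.map (fun v => g (ψ v))).prod

def Val (s : List L) : Prop := ∀ v, s.count v = 0 ∨ s.count v = 2

theorem map_update (g : Fin 3 → A) (s : List L) (a : L) (h : s.count a = 0) (ψ : L → Fin 3)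
    (c : Fin 3) : s.map (fun v => g (Function.update ψ a c v)) = s.map (fun v => g (ψ v)) := by
  apply List.map_congr_left
  intro v hv
  have : v ≠ a := by
    intro h'
    subst h'
    exact absurd hv (List.count_eq_zero.1 h)
  rw [Function.update_of_ne this]

/-- Summation over the index of a letter `a` which does not occur. -/
theorem sum_one (F : (L → Fin 3) → A) (a : L) (hF : ∀ ψ c, F (Function.update ψ a c) = F ψ)
    (k : Fin 3) : ∑ ψ : L → Fin 3, (if ψ a = k then F ψ else 0) = (1 / 3 : ℂ) • ∑ ψ, F ψ := by
  have h := sum_free' a F hF (fun _ => k) (fun _ _ => rfl)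
  rw [Fintype.card_fin] at h
  rw [← h, ← Nat.cast_smul_eq_nsmul ℂ, smul_smul]
  norm_num

theorem sum_eqv (F : (L → Fin 3) → A) {a b : L} (hab : b ≠ a)
    (hF : ∀ ψ c, F (Function.update ψ a c) = F ψ) :
    ∑ ψ : L → Fin 3, (if ψ a = ψ b then F ψ else 0) = (1 / 3 : ℂ) • ∑ ψ, F ψ := by
  have h := sum_free' a F hF (fun ψ => ψ b) (fun ψ c => by rw [Function.update_of_ne hab])
  rw [Fintype.card_fin] at h
  rw [← h, ← Nat.cast_smul_eq_nsmul ℂ, smul_smul]
  norm_num

/-- Split a sum according to the value at `a`. -/
theorem sum_split (G : Fin 3 → (L → Fin 3) → A) (a : L) :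
    ∑ ψ : L → Fin 3, G (ψ a) ψ = ∑ k, ∑ ψ : L → Fin 3, (if ψ a = k then G k ψ else 0) := by
  rw [Finset.sum_comm]
  refine Finset.sum_congr rfl fun ψ _ => ?_
  rw [Finset.sum_ite_eq]
  simp

/-- Chord with nothing between its endpoints. -/
theorem W3_zero (g : Fin 3 → A) (a : L) (s : List L) (h : s.count a = 0) :
    W3 g (a :: a :: s) = (∑ i, g i * g i) * ((1 / 3 : ℂ) • W3 g s) := by
  unfold W3
  have h1 : ∀ ψ : L → Fin 3, ((a :: a :: s).map (fun v => g (ψ v))).prod =
      g (ψ a) * g (ψ a) * (s.map (fun v => g (ψ v))).prod := by
    intro ψ
    rw [List.map_cons, List.map_cons, List.prod_cons, List.prod_cons, mul_assoc]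
  rw [Finset.sum_congr rfl fun ψ _ => h1 ψ,
    sum_split (fun k ψ => g k * g k * (s.map (fun v => g (ψ v))).prod) a, Finset.sum_mul]
  refine Finset.sum_congr rfl fun k _ => ?_
  rw [← sum_one (fun ψ => (s.map (fun v => g (ψ v))).prod) a (fun ψ c => by
    simp only [map_update g s a h]) k, Finset.mul_sum]
  refine Finset.sum_congr rfl fun ψ _ => ?_
  split_ifs
  · rfl
  · rw [mul_zero]

/-- Chord with one endpoint of another chord between its endpoints. -/
theorem W3_one {g : Fin 3 → A}
    (hg : ∀ j i, g j * g i - g i * g j = ∑ l, ((-2 * Complex.I) * (eps j i l : ℂ)) • g l)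
    {a b : L} (hab : b ≠ a) (s : List L) (h : s.count a = 0) :
    W3 g (a :: b :: a :: s) = (∑ i, g i * g i - (4 : ℂ) • 1) * ((1 / 3 : ℂ) • W3 g (b :: s)) := by
  unfold W3
  have h1 : ∀ ψ : L → Fin 3, ((a :: b :: a :: s).map (fun v => g (ψ v))).prod =
      g (ψ a) * g (ψ b) * g (ψ a) * (s.map (fun v => g (ψ v))).prod := by
    intro ψ
    simp only [List.map_cons, List.prod_cons, mul_assoc]
  rw [Finset.sum_congr rfl fun ψ _ => h1 ψ,
    sum_split (fun k ψ => g k * g (ψ b) * g k * (s.map (fun v => g (ψ v))).prod) a]
  have h2 : ∀ k, ∑ ψ : L → Fin 3, (if ψ a = k then
      g k * g (ψ b) * g k * (s.map (fun v => g (ψ v))).prod else 0) =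
      (1 / 3 : ℂ) • ∑ ψ : L → Fin 3, g k * g (ψ b) * g k * (s.map (fun v => g (ψ v))).prod := by
    intro k
    exact sum_one (fun ψ => g k * g (ψ b) * g k * (s.map (fun v => g (ψ v))).prod) a
      (fun ψ c => by simp only [map_update g s a h, Function.update_of_ne hab]) k
  rw [Finset.sum_congr rfl fun k _ => h2 k, ← Finset.smul_sum, Finset.sum_comm, mul_smul_comm,
    Finset.mul_sum]
  congr 1
  refine Finset.sum_congr rfl fun ψ _ => ?_
  rw [← Finset.sum_mul, one_comm hg, List.map_cons, List.prod_cons, mul_assoc]

/-- The six-term relation. -/
theorem W3_six {g : Fin 3 → A}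
    (hg : ∀ j i, g j * g i - g i * g j = ∑ l, ((-2 * Complex.I) * (eps j i l : ℂ)) • g l)
    {a b c : L} (hab : b ≠ a) (hac : c ≠ a) (s t : List L) (hs : s.count a = 0)
    (ht : t.count a = 0) :
    W3 g (a :: (s ++ b :: c :: a :: t)) = W3 g (a :: (s ++ b :: a :: c :: t)) +
      W3 g (a :: (s ++ c :: a :: b :: t)) - W3 g (a :: (s ++ a :: c :: b :: t)) +
      (-4 / 3 : ℂ) • W3 g (b :: (s ++ c :: t)) +
      (4 : ℂ) • ∑ ψ : L → Fin 3,
        (if ψ b = ψ c then ((a :: (s ++ a :: t)).map (fun v => g (ψ v))).prod else 0) := by
  unfold W3
  have h0 : ∀ ψ : L → Fin 3, ((a :: (s ++ b :: c :: a :: t)).map (fun v => g (ψ v))).prod =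
      ((a :: (s ++ b :: a :: c :: t)).map (fun v => g (ψ v))).prod +
      ((a :: (s ++ c :: a :: b :: t)).map (fun v => g (ψ v))).prod -
      ((a :: (s ++ a :: c :: b :: t)).map (fun v => g (ψ v))).prod +
      (-4 : ℂ) • (if ψ a = ψ b then ((b :: (s ++ c :: t)).map (fun v => g (ψ v))).prod else 0) +
      (4 : ℂ) • (if ψ b = ψ c then ((a :: (s ++ a :: t)).map (fun v => g (ψ v))).prod else 0) := by
    intro ψ
    have h1 := dbl_comm hg (ψ a) (ψ b) (ψ c)
    simp only [List.map_cons, List.map_append, List.prod_cons, List.prod_append]
    generalize (s.map (fun v => g (ψ v))).prod = S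
    generalize (t.map (fun v => g (ψ v))).prod = T
    have h2 := congrArg (fun X => g (ψ a) * S * X * T) h1
    rw [mul_add, add_mul, mul_smul_comm, mul_smul_comm, smul_mul_assoc, smul_mul_assoc] at h2
    have h3 : g (ψ a) * S * (g (ψ b) * (g (ψ c) * g (ψ a) - g (ψ a) * g (ψ c)) -
        (g (ψ c) * g (ψ a) - g (ψ a) * g (ψ c)) * g (ψ b)) * T =
        g (ψ a) * (S * (g (ψ b) * (g (ψ c) * (g (ψ a) * T)))) -
        g (ψ a) * (S * (g (ψ b) * (g (ψ a) * (g (ψ c) * T)))) -
        g (ψ a) * (S * (g (ψ c) * (g (ψ a) * (g (ψ b) * T)))) +
        g (ψ a) * (S * (g (ψ a) * (g (ψ c) * (g (ψ b) * T)))) := by noncomm_ring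
    rw [h3] at h2
    have h4 : g (ψ a) * S * (if ψ a = ψ b then g (ψ c) else 0) * T =
        (if ψ a = ψ b then g (ψ b) * (S * (g (ψ c) * T)) else 0) := by
      split_ifs with h5
      · rw [h5]; noncomm_ring
      · simp
    have h6 : g (ψ a) * S * (if ψ b = ψ c then g (ψ a) else 0) * T =
        (if ψ b = ψ c then g (ψ a) * (S * (g (ψ a) * T)) else 0) := by
      split_ifs with h5
      · noncomm_ring
      · simp
    rw [h4, h6] at h2
    rw [sub_eq_iff_eq_add.1 (sub_eq_iff_eq_add.1 (eq_sub_of_add_eq h2))]
    abel
  rw [Finset.sum_congr rfl fun ψ _ => h0 ψ]
  simp only [Finset.sum_add_distrib, Finset.sum_sub_distrib, ← Finset.smul_sum]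
  have h7 : ∑ ψ : L → Fin 3, (if ψ a = ψ b then
      ((b :: (s ++ c :: t)).map (fun v => g (ψ v))).prod else 0) =
      (1 / 3 : ℂ) • ∑ ψ : L → Fin 3, ((b :: (s ++ c :: t)).map (fun v => g (ψ v))).prod := by
    refine sum_eqv (fun ψ => ((b :: (s ++ c :: t)).map (fun v => g (ψ v))).prod) hab ?_
    intro ψ k
    have : (b :: (s ++ c :: t)).count a = 0 := by
      rw [List.count_cons_of_ne hab, List.count_append, List.count_cons_of_ne hac, hs, ht]
    rw [map_update g _ a this]
  rw [h7, smul_smul]
  congr 3
  norm_num

theorem count_ren {b c : L} (hbc : b ≠ c) (s : List L) (v : L) :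
    (s.map (ren b c)).count v = if v = b then s.count b + s.count c else
      if v = c then 0 else s.count v := by
  by_cases h1 : v = b
  · subst h1
    rw [if_pos rfl, count_ren_a hbc]
  · rw [if_neg h1]
    by_cases h2 : v = c
    · subst h2
      rw [if_pos rfl, count_ren_b hbc]
    · rw [if_neg h2, count_ren_of_ne s h1 h2]

theorem merge_sum (g : Fin 3 → A) {b c : L} (hbc : b ≠ c) (s : List L) :
    ∑ ψ : L → Fin 3, (if ψ b = ψ c then (s.map (fun v => g (ψ v))).prod else 0) =
      (1 / 3 : ℂ) • W3 g (s.map (ren b c)) := by
  unfold W3
  rw [← sum_eqv (fun ψ => ((s.map (ren b c)).map (fun v => g (ψ v))).prod) hbc (fun ψ k => by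
    rw [map_update g _ c (count_ren_b hbc s)])]
  refine Finset.sum_congr rfl fun ψ _ => ?_
  by_cases h : ψ b = ψ c
  · rw [if_pos h, if_pos h.symm, List.map_map]
    congr 1
    apply List.map_congr_left
    intro v _
    simp only [Function.comp, ren]
    split_ifs with h1
    · rw [h1, h]
    · rfl
  · rw [if_neg h, if_neg fun h' => h h'.symm]

theorem W3_mem {g : Fin 3 → A}
    (hg : ∀ j i, g j * g i - g i * g j = ∑ l, ((-2 * Complex.I) * (eps j i l : ℂ)) • g l) :
    ∀ (m : ℕ) (s : List L), s.length = m → Val s →
      W3 g s ∈ Algebra.adjoin ℂ {∑ i, g i * g i} := by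
  have hΩ : (∑ i, g i * g i) ∈ Algebra.adjoin ℂ {∑ i, g i * g i} :=
    Algebra.subset_adjoin (Set.mem_singleton _)
  intro m
  induction m using Nat.strong_induction_on with
  | _ m ih =>
    intro s hs hv
    cases s with
    | nil =>
      unfold W3
      simp only [List.map_nil, List.prod_nil, Finset.sum_const]
      exact Subalgebra.nsmul_mem _ (Subalgebra.one_mem _) _
    | cons a t =>
      have hat : t.count a = 1 := by
        have := hv a
        rw [List.count_cons_self] at this
        omega
      have hmem : a ∈ t := by
        rw [← List.count_pos_iff]; omega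
      obtain ⟨s1, s2, rfl⟩ := List.append_of_mem hmem
      have inner : ∀ (k : ℕ) (s1 s2 : List L), s1.length = k →
          (a :: (s1 ++ a :: s2)).length = m → Val (a :: (s1 ++ a :: s2)) →
          W3 g (a :: (s1 ++ a :: s2)) ∈ Algebra.adjoin ℂ {∑ i, g i * g i} := by
        intro k
        induction k using Nat.strong_induction_on with
        | _ k ihk =>
          intro s1 s2 hk hlen hv
          have hca : s1.count a = 0 ∧ s2.count a = 0 := by
            have := hv a
            rw [List.count_cons_self, List.count_append, List.count_cons_self] at this
            omega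
          rcases List.eq_nil_or_concat s1 with rfl | ⟨s1', c, rfl⟩
          · rw [List.nil_append, W3_zero g a s2 hca.2]
            refine Subalgebra.mul_mem _ hΩ (Subalgebra.smul_mem _ ?_ _)
            refine ih s2.length ?_ s2 rfl ?_
            · simp at hlen; omega
            · intro v
              by_cases hva : v = a
              · subst hva; exact Or.inl hca.2
              · have := hv v
                have hav : a ≠ v := fun h => hva h.symm
                rw [List.nil_append, List.count_cons_of_ne hav, List.count_cons_of_ne hav] at this
                exact this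
          · rw [List.concat_eq_append] at hk hlen hv hca ⊢
            have hca' : c ≠ a := by
              intro h
              subst h
              rw [List.count_append] at hca
              simp at hca
            have hs1a : s1'.count a = 0 := by
              rw [List.count_append] at hca
              omega
            rcases List.eq_nil_or_concat s1' with rfl | ⟨s1'', b, rfl⟩
            · rw [List.nil_append, List.singleton_append, W3_one hg hca' s2 hca.2]
              refine Subalgebra.mul_mem _ (Subalgebra.sub_mem _ hΩ
                (Subalgebra.smul_mem _ (Subalgebra.one_mem _) _)) (Subalgebra.smul_mem _ ?_ _)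
              refine ih (c :: s2).length ?_ (c :: s2) rfl ?_
              · simp at hlen ⊢; omega
              · intro v
                by_cases hva : v = a
                · subst hva
                  left
                  rw [List.count_cons_of_ne hca', hca.2]
                · have := hv v
                  have hav : a ≠ v := fun h => hva h.symm
                  rw [List.nil_append, List.singleton_append, List.count_cons_of_ne hav,
                    List.count_cons, List.count_cons_of_ne hav] at this
                  rw [List.count_cons]
                  exact this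
            · rw [List.concat_eq_append] at hk hlen hv hca hs1a ⊢
              have hba' : b ≠ a := by
                intro h
                subst h
                rw [List.count_append] at hs1a
                simp at hs1a
              have hsa : s1''.count a = 0 := by
                rw [List.count_append] at hs1a
                omega
              have e0 : a :: (s1'' ++ [b] ++ [c] ++ a :: s2) = a :: (s1'' ++ b :: c :: a :: s2) := by
                simp
              rw [e0] at hlen hv ⊢
              have hkk : s1''.length + 2 = k := by
                simp at hk; omega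
              have perm1 : ∀ v, (a :: ((s1'' ++ [b]) ++ a :: c :: s2)).count v =
                  (a :: (s1'' ++ b :: c :: a :: s2)).count v := by
                intro v
                simp only [List.count_cons, List.count_append, List.count_nil]
                omega
              have perm2 : ∀ v, (a :: ((s1'' ++ [c]) ++ a :: b :: s2)).count v =
                  (a :: (s1'' ++ b :: c :: a :: s2)).count v := by
                intro v
                simp only [List.count_cons, List.count_append, List.count_nil]
                omega
              have perm3 : ∀ v, (a :: (s1'' ++ a :: c :: b :: s2)).count v =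
                  (a :: (s1'' ++ b :: c :: a :: s2)).count v := by
                intro v
                simp only [List.count_cons, List.count_append]
                omega
              have m1 : W3 g (a :: (s1'' ++ b :: a :: c :: s2)) ∈
                  Algebra.adjoin ℂ {∑ i, g i * g i} := by
                have := ihk (k - 1) (by omega) (s1'' ++ [b]) (c :: s2) (by simp; omega)
                  (by simp at hlen ⊢; omega) (fun v => by rw [perm1 v]; exact hv v)
                simpa using this
              have m2 : W3 g (a :: (s1'' ++ c :: a :: b :: s2)) ∈
                  Algebra.adjoin ℂ {∑ i, g i * g i} := by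
                have := ihk (k - 1) (by omega) (s1'' ++ [c]) (b :: s2) (by simp; omega)
                  (by simp at hlen ⊢; omega) (fun v => by rw [perm2 v]; exact hv v)
                simpa using this
              have m3 : W3 g (a :: (s1'' ++ a :: c :: b :: s2)) ∈
                  Algebra.adjoin ℂ {∑ i, g i * g i} :=
                ihk (k - 2) (by omega) s1'' (c :: b :: s2) (by omega)
                  (by simp at hlen ⊢; omega) (fun v => by rw [perm3 v]; exact hv v)
              have m4 : W3 g (b :: (s1'' ++ c :: s2)) ∈ Algebra.adjoin ℂ {∑ i, g i * g i} := by
                refine ih (b :: (s1'' ++ c :: s2)).length ?_ _ rfl ?_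
                · simp at hlen ⊢; omega
                · intro v
                  by_cases hva : v = a
                  · subst hva
                    left
                    rw [List.count_cons_of_ne hba', List.count_append,
                      List.count_cons_of_ne hca', hsa, hca.2]
                  · have := hv v
                    have hav : a ≠ v := fun h => hva h.symm
                    simp only [List.count_cons, List.count_append, beq_iff_eq, hav, if_false] at this ⊢
                    omega
              have m5 : ∑ ψ : L → Fin 3, (if ψ b = ψ c then
                  ((a :: (s1'' ++ a :: s2)).map (fun v => g (ψ v))).prod else 0) ∈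
                  Algebra.adjoin ℂ {∑ i, g i * g i} := by
                by_cases hbc : b = c
                · subst hbc
                  simp only [if_true]
                  refine ih (a :: (s1'' ++ a :: s2)).length ?_ _ rfl ?_
                  · simp at hlen ⊢; omega
                  · intro v
                    have := hv v
                    by_cases hvb : b = v
                    · subst hvb
                      simp only [List.count_cons, List.count_append, beq_self_eq_true, if_true]
                        at this ⊢
                      omega
                    · simp only [List.count_cons, List.count_append, beq_iff_eq, hvb, if_false]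
                        at this ⊢
                      omega
                · rw [merge_sum g hbc]
                  refine Subalgebra.smul_mem _ (ih _ ?_ _ rfl ?_) _
                  · rw [List.length_map]
                    simp at hlen ⊢; omega
                  · intro v
                    rw [count_ren hbc]
                    have hv1 := hv v
                    have hvb := hv b
                    have hvc := hv c
                    have hcb : ¬ c = b := fun h => hbc h.symm
                    have hab' : ¬ a = b := fun h => hba' h.symm
                    have hac' : ¬ a = c := fun h => hca' h.symm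
                    simp only [List.count_cons, List.count_append, beq_self_eq_true, if_true,
                      beq_iff_eq, hbc, hcb, hab', hac', if_false] at hv1 hvb hvc ⊢
                    by_cases h1 : v = b
                    · rw [if_pos h1]; omega
                    · rw [if_neg h1]
                      by_cases h2 : v = c
                      · rw [if_pos h2]; omega
                      · rw [if_neg h2]
                        have h1' : ¬ b = v := fun h => h1 h.symm
                        have h2' : ¬ c = v := fun h => h2 h.symm
                        simp only [h1', h2', if_false] at hv1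
                        omega
              rw [W3_six hg hba' hca' s1'' s2 hsa hca.2]
              exact Subalgebra.add_mem _ (Subalgebra.add_mem _ (Subalgebra.sub_mem _
                (Subalgebra.add_mem _ m1 m2) m3) (Subalgebra.smul_mem _ m4 _))
                (Subalgebra.smul_mem _ m5 _)
      exact inner s1.length s1 s2 rfl hs hv

end Red

end Pool.Agent.R806.Osc
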