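import Mathlib

/-!
# Chord diagrams, the `sl(2)`-weight system and 4-invariants of graphs

The definitions used in the statement of the theorem in
`Pool/Agent/Results/MP_4cfd5d_gt/OscillatorExtension.lean`.
-/

set_option autoImplicit false

namespace Pool.Agent.R806.Osc

open Polynomial

/-! ## Graphs -/

/-- `G'_{ab}`: the adjacency of `a` and `b` is toggled. -/
def toggle {V : Type} (G : SimpleGraph V) (a b : V) : SimpleGraph V where
  Adj u v := u ≠ v ∧ Xor (G.Adj u v) ((u = a ∧ v = b) ∨ (u = b ∧ v = a))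
  symm := ⟨by
    rintro u v ⟨h1, h2⟩
    refine ⟨h1.symm, ?_⟩
    rw [G.adj_comm v u]
    have : ((v = a ∧ u = b) ∨ (v = b ∧ u = a)) ↔ ((u = a ∧ v = b) ∨ (u = b ∧ v = a)) := by tauto
    rw [this]
    exact h2⟩
  loopless := ⟨fun u h => h.1 rfl⟩

/-- `G̃_{ab}`: the adjacency of `a` with every vertex `v ≠ a` adjacent to `b` is toggled. -/
def slide {V : Type} (G : SimpleGraph V) (a b : V) : SimpleGraph V where
  Adj u v := u ≠ v ∧ Xor (G.Adj u v) ((u = a ∧ G.Adj b v) ∨ (v = a ∧ G.Adj b u))
  symm := ⟨by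
    rintro u v ⟨h1, h2⟩
    refine ⟨h1.symm, ?_⟩
    rw [G.adj_comm v u]
    have : ((v = a ∧ G.Adj b u) ∨ (u = a ∧ G.Adj b v)) ↔
      ((u = a ∧ G.Adj b v) ∨ (v = a ∧ G.Adj b u)) := by tauto
    rw [this]
    exact h2⟩
  loopless := ⟨fun u h => h.1 rfl⟩

/-- A 4-invariant of graphs: a function of finite simple graphs, invariant under isomorphisms, with
`f(G) - f(G'_{ab}) = f(G̃_{ab}) - f(G̃'_{ab})` for all `G` and all ordered pairs `a ≠ b`. -/
structure IsFourInvariant (f : ∀ (V : Type) [Finite V], SimpleGraph V → ℂ) : Prop where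
  iso : ∀ {V W : Type} [Finite V] [Finite W] (G : SimpleGraph V) (H : SimpleGraph W),
    Nonempty (G ≃g H) → f V G = f W H
  fourTerm : ∀ {V : Type} [Finite V] (G : SimpleGraph V) (a b : V), a ≠ b →
    f V G - f V (toggle G a b) = f V (slide G a b) - f V (toggle (slide G a b) a b)

/-! ## Chord diagrams -/

/-- A chord diagram of order `n`, given by the word which is read when one goes around the circle
once, starting anywhere between two endpoints of chords: the chords are numbered by `Fin n`, and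
every chord is met twice. -/
def IsChordDiagram {n : ℕ} (D : List (Fin n)) : Prop := ∀ v : Fin n, D.count v = 2

/-- The intersection graph `Γ(D)`: two chords `u ≠ v` are adjacent if their endpoints alternate. -/
def interGraph {n : ℕ} (D : List (Fin n)) : SimpleGraph (Fin n) where
  Adj u v := u ≠ v ∧ (D.filter (fun x => x = u ∨ x = v) = [u, v, u, v] ∨
    D.filter (fun x => x = u ∨ x = v) = [v, u, v, u])
  symm := ⟨by
    rintro u v ⟨h1, h2⟩
    refine ⟨h1.symm, ?_⟩
    have : (fun x : Fin n => decide (x = v ∨ x = u)) = fun x => decide (x = u ∨ x = v) := by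
      funext x
      exact decide_eq_decide.2 or_comm
    rw [this]
    exact h2.symm⟩
  loopless := ⟨fun u h => h.1 rfl⟩

/-! ## The weight system -/

/-- The Lie algebra `sl(2)` over `ℂ`. -/
abbrev sl2 : Type := LieAlgebra.SpecialLinear.sl (Fin 2) ℂ

/-- The universal enveloping algebra of `sl(2)`. -/
abbrev U : Type := UniversalEnvelopingAlgebra ℂ sl2

def matE : sl2 := ⟨!![0, 1; 0, 0], by
  simp [LieAlgebra.SpecialLinear.sl, Matrix.trace_fin_two]⟩

def matF : sl2 := ⟨!![0, 0; 1, 0], by
  simp [LieAlgebra.SpecialLinear.sl, Matrix.trace_fin_two]⟩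

def matH : sl2 := ⟨!![1, 0; 0, -1], by
  simp [LieAlgebra.SpecialLinear.sl, Matrix.trace_fin_two]⟩

/-- `E`, as an element of `U(sl(2))`. -/
noncomputable def E : U := UniversalEnvelopingAlgebra.ι ℂ matE

/-- `F`, as an element of `U(sl(2))`. -/
noncomputable def F : U := UniversalEnvelopingAlgebra.ι ℂ matF

/-- `H`, as an element of `U(sl(2))`. -/
noncomputable def H : U := UniversalEnvelopingAlgebra.ι ℂ matH

/-- The Casimir element `C = (EF + FE + H^2/2) / 4`. -/
noncomputable def casimir : U := (1 / 4 : ℂ) • (E * F + F * E + (1 / 2 : ℂ) • (H * H))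

/-- The elements `E + F`, `i (E - F)`, `H`.  The Casimir tensor
`(E ⊗ F + F ⊗ E + H ⊗ H / 2) / 4` is `(1/8) ∑ k, frame k ⊗ frame k`
(see `casimir_tensor` below). -/
noncomputable def frame : Fin 3 → U := ![E + F, Complex.I • (E - F), H]

/-- The `sl(2)`-weight system: the Casimir tensor is inserted at the endpoints of every chord,
and the elements are multiplied in the order in which the endpoints are met. -/
noncomputable def weight {n : ℕ} (D : List (Fin n)) : U :=
  (1 / 8 : ℂ) ^ n • ∑ ψ : Fin n → Fin 3, (D.map (fun v => frame (ψ v))).prod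

open scoped TensorProduct in
theorem casimir_tensor :
    (1 / 8 : ℂ) • ∑ k, frame k ⊗ₜ[ℂ] frame k =
      (1 / 4 : ℂ) • (E ⊗ₜ[ℂ] F + F ⊗ₜ[ℂ] E + (1 / 2 : ℂ) • (H ⊗ₜ[ℂ] H)) := by
  simp only [Fin.sum_univ_three, frame, Matrix.cons_val_zero, Matrix.cons_val_one,
    Matrix.cons_val, TensorProduct.tmul_add, TensorProduct.add_tmul, TensorProduct.tmul_sub,
    TensorProduct.sub_tmul, ← TensorProduct.smul_tmul', TensorProduct.tmul_smul, smul_smul,
    smul_sub, Complex.I_mul_I]
  module

end Pool.Agent.R806.Osc
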