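import Pool.Agent.R806.Osc.Model
import Pool.Agent.R806.Osc.Defs

/-!
# The model with two slots at every vertex, and the four-term relation
-/

set_option autoImplicit false

namespace Pool.Agent.R806.Osc

open Finset Polynomial
open scoped Classical

section Defs
variable {V : Type} [Fintype V]

/-- The relation on `V × Bool` given by a graph and a choice at every vertex. -/
def dbl (G : SimpleGraph V) (c : V → Bool) (p q : V × Bool) : Prop :=
  (p.1 = q.1 ∧ p.2 ≠ q.2 ∧ c p.1 = true) ∨ G.Adj p.1 q.1

noncomputable def tau {C : Type} (x y : Bool → C) : ℂ :=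
  ∏ i : Bool, ∏ j : Bool, if x i = y j then Complex.I else 1

noncomputable def gg (G : SimpleGraph V) {C : Type} (f : V → Bool → C) (u v : V) : ℂ :=
  if G.Adj u v then tau (f u) (f v) else 1

noncomputable def dd {C : Type} (x : Bool → C) : ℂ := if x false = x true then 0 else 2

noncomputable def phi (G : SimpleGraph V) (N : ℕ) : ℂ :=
  ∑ f : V → Bool → Fin N, (∏ u, dd (f u)) * ∏ u, ∏ v, gg G f u v

theorem wt_dbl (G : SimpleGraph V) (c : V → Bool) {C : Type} (f : V × Bool → C) :
    wt (dbl G c) f = (∏ u, if c u = true ∧ f (u, false) = f (u, true) then (-1 : ℂ) else 1) *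
      ∏ u, ∏ v, gg G (fun u i => f (u, i)) u v := by
  unfold wt
  rw [Fintype.prod_prod_type]
  have h1 : ∀ u : V, (∏ i : Bool, ∏ q : V × Bool, cell (dbl G c) f (u, i) q) =
      ∏ v : V, ∏ i : Bool, ∏ j : Bool, cell (dbl G c) f (u, i) (v, j) := by
    intro u
    exact (Finset.prod_congr rfl fun i _ => Fintype.prod_prod_type _).trans Finset.prod_comm
  rw [Finset.prod_congr rfl fun u _ => h1 u]
  have h2 : ∀ u v : V, (∏ i : Bool, ∏ j : Bool, cell (dbl G c) f (u, i) (v, j)) =
      (if u = v then (if c u = true ∧ f (u, false) = f (u, true) then (-1 : ℂ) else 1) else 1) *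
        gg G (fun u i => f (u, i)) u v := by
    intro u v
    by_cases huv : u = v
    · subst huv
      have hn : ¬ G.Adj u u := G.irrefl
      rw [if_pos rfl, gg, if_neg hn, mul_one]
      simp only [Fintype.prod_bool]
      rw [cell_neg (R := dbl G c) (u := (u, true)) (v := (u, true)) (by
          rintro (h | h)
          · exact h.2.1 rfl
          · exact hn h),
        cell_neg (R := dbl G c) (u := (u, false)) (v := (u, false)) (by
          rintro (h | h)
          · exact h.2.1 rfl
          · exact hn h)]
      by_cases h : c u = true ∧ f (u, false) = f (u, true)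
      · rw [if_pos h, cell_pos (R := dbl G c) (u := (u, true)) (v := (u, false))
            (Or.inl ⟨rfl, by simp, h.1⟩) h.2.symm,
          cell_pos (R := dbl G c) (u := (u, false)) (v := (u, true))
            (Or.inl ⟨rfl, by simp, h.1⟩) h.2]
        simp
      · rw [if_neg h]
        have e1 : cell (dbl G c) f (u, true) (u, false) = 1 := by
          refine if_neg ?_
          rintro ⟨h1 | h1, h2⟩
          · exact h ⟨h1.2.2, h2.symm⟩
          · exact hn h1
        have e2 : cell (dbl G c) f (u, false) (u, true) = 1 := by
          refine if_neg ?_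
          rintro ⟨h1 | h1, h2⟩
          · exact h ⟨h1.2.2, h2⟩
          · exact hn h1
        rw [e1, e2]
        simp
    · rw [if_neg huv, one_mul]
      unfold gg tau
      by_cases h : G.Adj u v
      · rw [if_pos h]
        refine Finset.prod_congr rfl fun i _ => Finset.prod_congr rfl fun j _ => ?_
        by_cases h3 : f (u, i) = f (v, j)
        · rw [if_pos h3]
          exact cell_pos (Or.inr h) h3
        · rw [if_neg h3]
          exact cell_ne h3
      · rw [if_neg h]
        refine Finset.prod_eq_one fun i _ => Finset.prod_eq_one fun j _ => ?_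
        apply cell_neg
        rintro (h1 | h1)
        · exact huv h1.1
        · exact h h1
  rw [Finset.prod_congr rfl fun u _ => Finset.prod_congr rfl fun v _ => h2 u v]
  simp only [Finset.prod_mul_distrib]
  congr 1
  refine Finset.prod_congr rfl fun u _ => ?_
  simp

theorem sum_dbl (G : SimpleGraph V) (N : ℕ) :
    ∑ c : V → Bool, psi (dbl G c) N = phi G N := by
  have key := Fintype.sum_equiv (Equiv.curry V Bool (Fin N))
    (fun f : V × Bool → Fin N => ∑ c : V → Bool, wt (dbl G c) f)
    (fun f : V → Bool → Fin N => (∏ u, dd (f u)) * ∏ u, ∏ v, gg G f u v) (by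
      intro f
      simp only [wt_dbl]
      rw [← Finset.sum_mul]
      congr 1
      have h1 := Finset.prod_univ_sum (fun _ : V => (univ : Finset Bool))
        (fun u b => if b = true ∧ f (u, false) = f (u, true) then (-1 : ℂ) else 1)
      rw [Fintype.piFinset_univ] at h1
      refine Eq.trans ?_ (h1.symm.trans ?_)
      · refine Finset.sum_congr rfl fun p _ => Finset.prod_congr rfl fun u _ => ?_
        by_cases h : p u = true ∧ f (u, false) = f (u, true)
        · rw [if_pos h, if_pos h]
        · rw [if_neg h, if_neg h]
      · refine Finset.prod_congr rfl fun u _ => ?_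
        rw [Fintype.sum_bool]
        unfold dd
        by_cases h : f (u, false) = f (u, true)
        · rw [if_pos ⟨rfl, h⟩, if_neg (fun h' => Bool.noConfusion h'.1), if_pos (by exact h)]
          norm_num
        · rw [if_neg (fun h' => h h'.2), if_neg (fun h' => h h'.2), if_neg (by exact h)]
          norm_num)
  unfold psi phi
  rw [Finset.sum_comm]
  convert key using 2
  ext f
  simp

noncomputable def xi0 (G : SimpleGraph V) : ℂ :=
  (-1 / 128) ^ Fintype.card V * ∑ c : V → Bool, hh (dbl G c)

noncomputable def pphi (G : SimpleGraph V) : ℂ[X] := ∑ c : V → Bool, pol (dbl G c)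

theorem pphi_eval (G : SimpleGraph V) (N : ℕ) : (pphi G).eval (N : ℂ) = phi G N := by
  rw [← sum_dbl, pphi, Polynomial.eval_finsetSum]
  exact Finset.sum_congr rfl fun c _ => pol_eval _ N

theorem xi0_eq (G : SimpleGraph V) :
    xi0 G = (-1 / 128) ^ Fintype.card V * (pphi G).eval (-2) := by
  unfold xi0 pphi hh
  rw [Polynomial.eval_finsetSum]

end Defs

section Iso

theorem phi_iso {V W : Type} [Fintype V] [Fintype W] {G : SimpleGraph V} {H : SimpleGraph W}
    (e : G ≃g H) (N : ℕ) : phi G N = phi H N := by
  unfold phi
  rw [← (Equiv.arrowCongr e.toEquiv (Equiv.refl (Bool → Fin N))).sum_comp]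
  refine Finset.sum_congr rfl fun f _ => ?_
  have h1 : ∀ w, (Equiv.arrowCongr e.toEquiv (Equiv.refl (Bool → Fin N))) f w =
      f (e.symm w) := fun w => rfl
  congr 1
  · rw [← e.toEquiv.prod_comp]
    refine Finset.prod_congr rfl fun u _ => ?_
    rw [h1]
    congr 1
    exact congrArg f (e.symm_apply_apply u).symm
  · rw [← e.toEquiv.prod_comp]
    refine Finset.prod_congr rfl fun u _ => ?_
    rw [← e.toEquiv.prod_comp]
    refine Finset.prod_congr rfl fun v _ => ?_
    unfold gg
    rw [h1, h1]
    have h2 : f (e.symm (e.toEquiv u)) = f u := congrArg f (e.symm_apply_apply u)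
    have h3 : f (e.symm (e.toEquiv v)) = f v := congrArg f (e.symm_apply_apply v)
    rw [h2, h3]
    have h4 : H.Adj (e.toEquiv u) (e.toEquiv v) ↔ G.Adj u v := e.map_rel_iff
    by_cases h : G.Adj u v
    · rw [if_pos h, if_pos (h4.2 h)]
    · rw [if_neg h, if_neg fun h' => h (h4.1 h')]

theorem xi0_iso {V W : Type} [Fintype V] [Fintype W] {G : SimpleGraph V} {H : SimpleGraph W}
    (e : G ≃g H) : xi0 G = xi0 H := by
  have h : pphi G = pphi H := poly_ext fun N => by rw [pphi_eval, pphi_eval, phi_iso e]
  rw [xi0_eq, xi0_eq, h, Fintype.card_congr e.toEquiv]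

end Iso

section Four
variable {C : Type}

noncomputable def t2 (x : Bool → C) (c : C) : ℂ :=
  (if x false = c then -1 else 1) * (if x true = c then -1 else 1)

noncomputable def tt (x z : Bool → C) : ℂ := tau x z * tau z x

theorem tt_eq (x z : Bool → C) : tt x z = t2 x (z false) * t2 x (z true) := by
  unfold tt tau t2
  simp only [Fintype.prod_bool]
  have h : ∀ p q : C, (if p = q then Complex.I else 1) * (if q = p then Complex.I else 1) =
      if p = q then (-1 : ℂ) else 1 := by
    intro p q
    by_cases h : p = q
    · rw [if_pos h, if_pos h.symm, if_pos h]; exact Complex.I_mul_I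
    · rw [if_neg h, if_neg fun h' => h h'.symm, if_neg h]; simp
  rw [← h (x false) (z false), ← h (x false) (z true), ← h (x true) (z false),
    ← h (x true) (z true)]
  ring

theorem tt_comm (x z : Bool → C) : tt x z = tt z x := by
  unfold tt; ring

theorem t2_sq (x : Bool → C) (c : C) : t2 x c * t2 x c = 1 := by
  unfold t2
  split_ifs <;> norm_num

theorem tt_sq (x z : Bool → C) : tt x z * tt x z = 1 := by
  rw [tt_eq]
  linear_combination (t2 x (z true) * t2 x (z true)) * t2_sq x (z false) + t2_sq x (z true)

/-- `y` with the two colours of `x` exchanged. -/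
noncomputable def sw (x y : Bool → C) : Bool → C := fun j => Equiv.swap (x false) (x true) (y j)

theorem sw_sw (x y : Bool → C) : sw x (sw x y) = y := by
  funext j
  simp [sw]

theorem tt_sw (x y : Bool → C) : tt x (sw x y) = tt x y := by
  rw [tt_eq, tt_eq]
  have h : ∀ c : C, t2 x (Equiv.swap (x false) (x true) c) = t2 x c := by
    intro c
    unfold t2
    by_cases h1 : c = x false
    · subst h1
      rw [Equiv.swap_apply_left]
      by_cases h2 : x false = x true
      · simp [h2]
      · have h3 : ¬ x true = x false := fun h => h2 h.symm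
        simp [h2, h3]
    · by_cases h2 : c = x true
      · subst h2
        rw [Equiv.swap_apply_right]
        by_cases h2 : x false = x true
        · simp [h2]
        · have h3 : ¬ x true = x false := fun h => h2 h.symm
          simp [h2, h3]
      · rw [Equiv.swap_apply_of_ne_of_ne h1 h2]
  unfold sw
  rw [h, h]

theorem t2_sw {x y : Bool → C} (hx : x false ≠ x true) (hy : y false ≠ y true)
    (h : tt x y ≠ 1) (c : C) : t2 (sw x y) c = t2 x c * t2 y c := by
  rw [tt_eq] at h
  unfold t2 at h ⊢
  unfold sw
  generalize x false = p at *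
  generalize x true = q at *
  generalize y false = r at *
  generalize y true = s at *
  by_cases h1 : p = r
  · subst h1
    by_cases h2 : q = s
    · subst h2
      exfalso; apply h
      have h3 : ¬ q = p := fun h => hx h.symm
      simp [hx, h3]
    · have h3 : ¬ s = p := fun h => hy h.symm
      have h4 : ¬ s = q := fun h => h2 h.symm
      rw [Equiv.swap_apply_left, Equiv.swap_apply_of_ne_of_ne h3 h4]
      by_cases c1 : p = c
      · subst c1
        have h5 : ¬ q = p := fun h => hx h.symm
        simp [h3, h5]
      · simp [c1]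
  · by_cases h2 : q = r
    · subst h2
      rw [Equiv.swap_apply_right]
      by_cases h3 : p = s
      · subst h3
        exfalso; apply h
        simp [hx, hy]
      · have h4 : ¬ s = p := fun h => h3 h.symm
        have h5 : ¬ s = q := fun h => hy h.symm
        rw [Equiv.swap_apply_of_ne_of_ne h4 h5]
        by_cases c1 : q = c
        · subst c1
          simp [h1, h5]
        · simp [c1]
    · have h1' : ¬ r = p := fun h => h1 h.symm
      have h2' : ¬ r = q := fun h => h2 h.symm
      rw [Equiv.swap_apply_of_ne_of_ne h1' h2']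
      by_cases h3 : p = s
      · subst h3
        rw [Equiv.swap_apply_left]
        by_cases c1 : p = c
        · subst c1
          have h5 : ¬ q = p := fun h => hx h.symm
          simp [h5, h1']
        · simp [c1, mul_comm]
      · by_cases h4 : q = s
        · subst h4
          rw [Equiv.swap_apply_right]
          by_cases c1 : q = c
          · subst c1
            simp [hx, h2']
          · simp [c1, mul_comm]
        · exfalso; apply h
          simp [h1, h2, h3, h4]

theorem tt_sw' {x y : Bool → C} (hx : x false ≠ x true) (hy : y false ≠ y true)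
    (h : tt x y ≠ 1) (z : Bool → C) : tt (sw x y) z = tt x z * tt y z := by
  rw [tt_eq, tt_eq, tt_eq, t2_sw hx hy h, t2_sw hx hy h]
  ring

end Four

section FourTerm
variable {V : Type} [Fintype V]

noncomputable def ff (G : SimpleGraph V) {C : Type} (f : V → Bool → C) : ℂ :=
  (∏ u, dd (f u)) * ∏ u, ∏ v, gg G f u v

omit [Fintype V] in
theorem gg_pair (G : SimpleGraph V) {C : Type} (f : V → Bool → C) (u v : V) :
    gg G f u v * gg G f v u = if G.Adj u v then tt (f u) (f v) else 1 := by
  unfold gg tt
  by_cases h : G.Adj u v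
  · rw [if_pos h, if_pos h.symm, if_pos h]
  · rw [if_neg h, if_neg fun h' => h h'.symm, if_neg h, mul_one]

theorem ff_split (G : SimpleGraph V) {a b : V} (hab : a ≠ b) {C : Type} (f : V → Bool → C) :
    ff G f = (∏ u, dd (f u)) * ((if G.Adj a b then tt (f a) (f b) else 1) *
      (∏ v ∈ (univ.erase a).erase b, (if G.Adj a v then tt (f a) (f v) else 1) *
        (if G.Adj b v then tt (f b) (f v) else 1)) *
      ∏ u ∈ (univ.erase a).erase b, ∏ v ∈ (univ.erase a).erase b, gg G f u v) := by
  unfold ff
  rw [split2 hab (gg G f)]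
  have haa : gg G f a a = 1 := if_neg G.irrefl
  have hbb : gg G f b b = 1 := if_neg G.irrefl
  rw [haa, hbb, one_mul, mul_one, gg_pair]
  simp only [gg_pair]

theorem dd_sw {C : Type} (x y : Bool → C) : dd (sw x y) = dd y := by
  unfold dd sw
  by_cases h : y false = y true
  · rw [if_pos h, h, if_pos rfl]
  · rw [if_neg h, if_neg]
    intro h'
    exact h ((Equiv.swap _ _).injective h')

theorem four_point (G : SimpleGraph V) {a b : V} (hab : a ≠ b) {C : Type} (f : V → Bool → C) :
    ff G f - ff (toggle G a b) f =
      ff (slide G a b) (Function.update f b (sw (f a) (f b))) -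
        ff (toggle (slide G a b) a b) (Function.update f b (sw (f a) (f b))) := by
  have hd : (∏ u, dd (Function.update f b (sw (f a) (f b)) u)) = ∏ u, dd (f u) := by
    refine Finset.prod_congr rfl fun u _ => ?_
    by_cases hu : u = b
    · subst hu; rw [Function.update_self, dd_sw]
    · rw [Function.update_of_ne hu]
  rw [ff_split G hab, ff_split (toggle G a b) hab, ff_split (slide G a b) hab,
    ff_split (toggle (slide G a b) a b) hab, hd]
  rw [Function.update_self, Function.update_of_ne hab]
  by_cases hx : f a false = f a true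
  · have : ∏ u, dd (f u) = 0 := Finset.prod_eq_zero (Finset.mem_univ a) (by rw [dd, if_pos hx])
    rw [this]; ring
  by_cases hy : f b false = f b true
  · have : ∏ u, dd (f u) = 0 := Finset.prod_eq_zero (Finset.mem_univ b) (by rw [dd, if_pos hy])
    rw [this]; ring
  -- adjacency facts
  have t_ab : (toggle G a b).Adj a b ↔ ¬ G.Adj a b := by
    constructor
    · rintro ⟨_, h | h⟩
      · exact absurd (Or.inl ⟨rfl, rfl⟩) h.2
      · exact h.2
    · intro h
      exact ⟨hab, Or.inr ⟨Or.inl ⟨rfl, rfl⟩, h⟩⟩
  have s_ab : (slide G a b).Adj a b ↔ G.Adj a b := by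
    constructor
    · rintro ⟨_, h | h⟩
      · exact h.1
      · rcases h.1 with h1 | h1
        · exact absurd h1.2 G.irrefl
        · exact absurd h1.1 hab.symm
    · intro h
      refine ⟨hab, Or.inl ⟨h, ?_⟩⟩
      rintro (h1 | h1)
      · exact absurd h1.2 G.irrefl
      · exact absurd h1.1 hab.symm
  have ts_ab : (toggle (slide G a b) a b).Adj a b ↔ ¬ G.Adj a b := by
    rw [← s_ab]
    constructor
    · rintro ⟨_, h | h⟩
      · exact absurd (Or.inl ⟨rfl, rfl⟩) h.2
      · exact h.2
    · intro h
      exact ⟨hab, Or.inr ⟨Or.inl ⟨rfl, rfl⟩, h⟩⟩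
  have tog : ∀ (H : SimpleGraph V) (u v : V), ¬ (u = a ∧ v = b) → ¬ (u = b ∧ v = a) →
      ((toggle H a b).Adj u v ↔ H.Adj u v) := by
    intro H u v h1 h2
    constructor
    · rintro ⟨_, h | h⟩
      · exact h.1
      · rcases h.1 with h3 | h3
        · exact absurd h3 h1
        · exact absurd h3 h2
    · intro h
      refine ⟨h.ne, Or.inl ⟨h, ?_⟩⟩
      rintro (h3 | h3)
      · exact h1 h3
      · exact h2 h3
  have s_av : ∀ v, v ≠ a → v ≠ b → ((slide G a b).Adj a v ↔ ¬ (G.Adj a v ↔ G.Adj b v)) := by
    intro v hva hvb
    constructor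
    · rintro ⟨_, h | h⟩
      · intro h3
        exact h.2 (Or.inl ⟨rfl, h3.1 h.1⟩)
      · intro h3
        rcases h.1 with h4 | h4
        · exact h.2 (h3.2 h4.2)
        · exact hva h4.1
    · intro h
      refine ⟨hva.symm, ?_⟩
      by_cases h1 : G.Adj a v
      · left
        refine ⟨h1, ?_⟩
        rintro (h3 | h3)
        · exact h ⟨fun _ => h3.2, fun _ => h1⟩
        · exact hva h3.1
      · right
        refine ⟨Or.inl ⟨rfl, ?_⟩, h1⟩
        by_contra h3
        exact h ⟨fun h' => absurd h' h1, fun h' => absurd h' h3⟩
  have s_uv : ∀ u v, u ≠ a → v ≠ a → ((slide G a b).Adj u v ↔ G.Adj u v) := by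
    intro u v hu hv
    constructor
    · rintro ⟨_, h | h⟩
      · exact h.1
      · rcases h.1 with h4 | h4
        · exact absurd h4.1 hu
        · exact absurd h4.1 hv
    · intro h
      refine ⟨h.ne, Or.inl ⟨h, ?_⟩⟩
      rintro (h4 | h4)
      · exact absurd h4.1 hu
      · exact absurd h4.1 hv
  have K1 : ∀ H : SimpleGraph V, (∏ u ∈ (univ.erase a).erase b, ∏ v ∈ (univ.erase a).erase b,
      gg (toggle H a b) f u v) =
      ∏ u ∈ (univ.erase a).erase b, ∏ v ∈ (univ.erase a).erase b, gg H f u v := by
    intro H
    refine Finset.prod_congr rfl fun u hu => Finset.prod_congr rfl fun v hv => ?_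
    have hub := Finset.ne_of_mem_erase hu
    have hua := Finset.ne_of_mem_erase (Finset.mem_of_mem_erase hu)
    unfold gg
    rw [tog H u v (fun h => hua h.1) (fun h => hub h.1)]
  have K2 : (∏ u ∈ (univ.erase a).erase b, ∏ v ∈ (univ.erase a).erase b,
      gg (slide G a b) f u v) =
      ∏ u ∈ (univ.erase a).erase b, ∏ v ∈ (univ.erase a).erase b, gg G f u v := by
    refine Finset.prod_congr rfl fun u hu => Finset.prod_congr rfl fun v hv => ?_
    have hua := Finset.ne_of_mem_erase (Finset.mem_of_mem_erase hu)
    have hva := Finset.ne_of_mem_erase (Finset.mem_of_mem_erase hv)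
    unfold gg
    rw [s_uv u v hua hva]
  have K3 : ∀ H : SimpleGraph V, (∏ u ∈ (univ.erase a).erase b, ∏ v ∈ (univ.erase a).erase b,
      gg H (Function.update f b (sw (f a) (f b))) u v) =
      ∏ u ∈ (univ.erase a).erase b, ∏ v ∈ (univ.erase a).erase b, gg H f u v := by
    intro H
    refine Finset.prod_congr rfl fun u hu => Finset.prod_congr rfl fun v hv => ?_
    have hub := Finset.ne_of_mem_erase hu
    have hvb := Finset.ne_of_mem_erase hv
    unfold gg
    rw [Function.update_of_ne hub, Function.update_of_ne hvb]
  rw [K1 G, K3, K3, K1 (slide G a b), K2]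
  have M1 : (∏ v ∈ (univ.erase a).erase b,
      (if (toggle G a b).Adj a v then tt (f a) (f v) else 1) *
        (if (toggle G a b).Adj b v then tt (f b) (f v) else 1)) =
      ∏ v ∈ (univ.erase a).erase b, (if G.Adj a v then tt (f a) (f v) else 1) *
        (if G.Adj b v then tt (f b) (f v) else 1) := by
    refine Finset.prod_congr rfl fun v hv => ?_
    have hvb := Finset.ne_of_mem_erase hv
    have hva := Finset.ne_of_mem_erase (Finset.mem_of_mem_erase hv)
    rw [tog G a v (fun h => hvb h.2) (fun h => hab h.1),
      tog G b v (fun h => hab h.1.symm) (fun h => hva h.2)]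
  have M2 : (∏ v ∈ (univ.erase a).erase b,
      (if (toggle (slide G a b) a b).Adj a v then
        tt (f a) (Function.update f b (sw (f a) (f b)) v) else 1) *
        (if (toggle (slide G a b) a b).Adj b v then
          tt (sw (f a) (f b)) (Function.update f b (sw (f a) (f b)) v) else 1)) =
      ∏ v ∈ (univ.erase a).erase b, (if (slide G a b).Adj a v then tt (f a) (f v) else 1) *
        (if (slide G a b).Adj b v then tt (sw (f a) (f b)) (f v) else 1) := by
    refine Finset.prod_congr rfl fun v hv => ?_
    have hvb := Finset.ne_of_mem_erase hv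
    have hva := Finset.ne_of_mem_erase (Finset.mem_of_mem_erase hv)
    rw [tog (slide G a b) a v (fun h => hvb h.2) (fun h => hab h.1),
      tog (slide G a b) b v (fun h => hab h.1.symm) (fun h => hva h.2),
      Function.update_of_ne hvb]
  have M3 : (∏ v ∈ (univ.erase a).erase b,
      (if (slide G a b).Adj a v then
        tt (f a) (Function.update f b (sw (f a) (f b)) v) else 1) *
        (if (slide G a b).Adj b v then
          tt (sw (f a) (f b)) (Function.update f b (sw (f a) (f b)) v) else 1)) =
      ∏ v ∈ (univ.erase a).erase b, (if (slide G a b).Adj a v then tt (f a) (f v) else 1) *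
        (if (slide G a b).Adj b v then tt (sw (f a) (f b)) (f v) else 1) := by
    refine Finset.prod_congr rfl fun v hv => ?_
    have hvb := Finset.ne_of_mem_erase hv
    rw [Function.update_of_ne hvb]
  rw [M1, M2, M3, tt_sw]
  by_cases hT : tt (f a) (f b) = 1
  · rw [hT]
    simp
  · have M4 : (∏ v ∈ (univ.erase a).erase b,
        (if (slide G a b).Adj a v then tt (f a) (f v) else 1) *
        (if (slide G a b).Adj b v then tt (sw (f a) (f b)) (f v) else 1)) =
        ∏ v ∈ (univ.erase a).erase b, (if G.Adj a v then tt (f a) (f v) else 1) *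
        (if G.Adj b v then tt (f b) (f v) else 1) := by
      refine Finset.prod_congr rfl fun v hv => ?_
      have hvb := Finset.ne_of_mem_erase hv
      have hva := Finset.ne_of_mem_erase (Finset.mem_of_mem_erase hv)
      rw [tt_sw' hx hy hT]
      have e1 := s_av v hva hvb
      have e2 := s_uv b v hab.symm hva
      by_cases r1 : G.Adj a v
      · by_cases r2 : G.Adj b v
        · have r3 : ¬ (slide G a b).Adj a v := fun h => (e1.1 h) ⟨fun _ => r2, fun _ => r1⟩
          rw [if_neg r3, if_pos (e2.2 r2), if_pos r1, if_pos r2, one_mul]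
        · have r3 : (slide G a b).Adj a v := e1.2 fun h => r2 (h.1 r1)
          rw [if_pos r3, if_neg fun h => r2 (e2.1 h), if_pos r1, if_neg r2]
      · by_cases r2 : G.Adj b v
        · have r3 : (slide G a b).Adj a v := e1.2 fun h => r1 (h.2 r2)
          rw [if_pos r3, if_pos (e2.2 r2), if_neg r1, if_pos r2]
          linear_combination tt (f b) (f v) * tt_sq (f a) (f v)
        · have r3 : ¬ (slide G a b).Adj a v := fun h =>
            (e1.1 h) ⟨fun h' => absurd h' r1, fun h' => absurd h' r2⟩
          rw [if_neg r3, if_neg fun h => r2 (e2.1 h), if_neg r1, if_neg r2]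
    rw [M4]
    by_cases r : G.Adj a b
    · rw [if_pos r, if_neg fun h => (t_ab.1 h) r, if_pos (s_ab.2 r), if_neg fun h => (ts_ab.1 h) r]
    · rw [if_neg r, if_pos (t_ab.2 r), if_neg fun h => r (s_ab.1 h), if_pos (ts_ab.2 r)]

theorem phi_four (G : SimpleGraph V) {a b : V} (hab : a ≠ b) (N : ℕ) :
    phi G N - phi (toggle G a b) N = phi (slide G a b) N - phi (toggle (slide G a b) a b) N := by
  have inv : Function.Involutive (fun f : V → Bool → Fin N =>
      Function.update f b (sw (f a) (f b))) := by
    intro f
    funext u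
    by_cases hu : u = b
    · subst hu
      simp only [Function.update_self, Function.update_of_ne hab, sw_sw]
    · simp only [Function.update_of_ne hu]
  have h1 : ∀ H : SimpleGraph V, phi H N = ∑ f : V → Bool → Fin N, ff H f := fun H => rfl
  have h2 : ∀ H : SimpleGraph V, phi H N = ∑ f : V → Bool → Fin N,
      ff H (Function.update f b (sw (f a) (f b))) := by
    intro H
    rw [h1]
    exact (Equiv.sum_comp (Function.Involutive.toPerm _ inv) (ff H)).symm
  rw [h1 G, h1 (toggle G a b), h2 (slide G a b), h2 (toggle (slide G a b) a b),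
    ← Finset.sum_sub_distrib, ← Finset.sum_sub_distrib]
  exact Finset.sum_congr rfl fun f _ => four_point G hab f

theorem xi0_four (G : SimpleGraph V) {a b : V} (hab : a ≠ b) :
    xi0 G - xi0 (toggle G a b) = xi0 (slide G a b) - xi0 (toggle (slide G a b) a b) := by
  have h : pphi G - pphi (toggle G a b) =
      pphi (slide G a b) - pphi (toggle (slide G a b) a b) := by
    apply poly_ext
    intro N
    rw [Polynomial.eval_sub, Polynomial.eval_sub, pphi_eval, pphi_eval, pphi_eval, pphi_eval]
    exact phi_four G hab N
  have h' := congrArg (Polynomial.eval (-2)) h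
  rw [Polynomial.eval_sub, Polynomial.eval_sub] at h'
  rw [xi0_eq, xi0_eq, xi0_eq, xi0_eq]
  linear_combination (-1 / 128) ^ Fintype.card V * h'

end FourTerm

end Pool.Agent.R806.Osc
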