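import Pool.Agent.R806.Osc.Word
import Pool.Agent.R806.Osc.Phi

/-!
# Doubled words
-/

set_option autoImplicit false
set_option linter.unusedSectionVars false
set_option linter.unusedSimpArgs false

namespace Pool.Agent.R806.Osc

open Finset

section Ori
variable {V : Type} [DecidableEq V]

/-- Mark the first (`false`) and the later (`true`) occurrences of the letters. -/
def ori (seen : Finset V) : List V → List (V × Bool)
  | [] => []
  | v :: t => (v, decide (v ∈ seen)) :: ori (insert v seen) t

theorem lab_ori (seen : Finset V) (D : List V) : lab (ori seen D) = D := by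
  induction D generalizing seen with
  | nil => rfl
  | cons v t ih =>
    unfold ori
    unfold lab at ih ⊢
    rw [List.map_cons, ih]

theorem filter_ori_mem (v : V) (D : List V) : ∀ seen : Finset V, v ∈ seen →
    (ori seen D).filter (fun p => p.1 = v) = List.replicate (D.count v) (v, true) := by
  induction D with
  | nil => intro seen _; rfl
  | cons w t ih =>
    intro seen h
    unfold ori
    rw [List.filter_cons, ih _ (Finset.mem_insert_of_mem h), List.count_cons]
    by_cases hw : w = v
    · subst hw
      simp [h, List.replicate_succ]
    · simp [hw]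

theorem filter_ori_not_mem (v : V) (D : List V) : ∀ seen : Finset V, v ∉ seen → D.count v = 2 →
    (ori seen D).filter (fun p => p.1 = v) = [(v, false), (v, true)] := by
  induction D with
  | nil => intro seen _ h; simp at h
  | cons w t ih =>
    intro seen h hc
    unfold ori
    rw [List.filter_cons]
    rw [List.count_cons] at hc
    by_cases hw : w = v
    · subst hw
      simp only [beq_self_eq_true, if_true] at hc
      have h1 : t.count w = 1 := by omega
      rw [filter_ori_mem w t _ (Finset.mem_insert_self w seen), h1]
      simp [h]
    · have hw' : ¬ v = w := fun h => hw h.symm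
      have h1 : t.count v = 2 := by simpa [hw] using hc
      rw [ih _ (by simp [h, hw']) h1]
      simp [hw]

end Ori

section Double
variable {V : Type} [Fintype V] [DecidableEq V]

/-- The two letters which replace a letter. -/
def blk (c : V → Bool) (p : V × Bool) : List ((V × Bool) × Bool) :=
  if p.2 = true ∧ c p.1 = false then [((p.1, true), true), ((p.1, false), true)]
  else [((p.1, false), p.2), ((p.1, true), p.2)]

def dw (c : V → Bool) (s : List (V × Bool)) : List ((V × Bool) × Bool) := s.flatMap (blk c)

theorem dw_cons (c : V → Bool) (p : V × Bool) (s : List (V × Bool)) :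
    dw c (p :: s) = blk c p ++ dw c s := List.flatMap_cons

theorem filter_blk (c : V → Bool) (p : V × Bool) (v : V) (i : Bool) :
    (blk c p).filter (fun q => q.1 = (v, i)) = if p.1 = v then [((v, i), p.2)] else [] := by
  obtain ⟨w, o⟩ := p
  unfold blk
  by_cases hw : w = v
  · subst hw
    cases o <;> cases i <;> cases hc : c w <;> simp [hc]
  · cases o <;> cases i <;> cases hc : c w <;> simp [hc, hw]

theorem filter_dw (c : V → Bool) (s : List (V × Bool)) (v : V) (i : Bool) :
    (dw c s).filter (fun q => q.1 = (v, i)) =
      (s.filter (fun p => p.1 = v)).map (fun p => ((v, i), p.2)) := by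
  induction s with
  | nil => rfl
  | cons p s ih =>
    rw [dw_cons, List.filter_append, ih, filter_blk, List.filter_cons]
    by_cases h : p.1 = v
    · simp [h]
    · simp [h]

theorem valid_dw (c : V → Bool) {s : List (V × Bool)} (h : Valid (univ : Finset V) s) :
    Valid (univ : Finset (V × Bool)) (dw c s) := by
  rintro ⟨v, i⟩
  rw [filter_dw, h v]
  simp

theorem count_dw (c : V → Bool) (s : List (V × Bool)) (v : V) (i : Bool) :
    @List.count (V × Bool) instBEqOfDecidableEq (v, i) (lab (dw c s)) = (lab s).count v := by
  rw [count_lab, filter_dw, List.length_map, count_lab]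

theorem lab_append {L : Type} (s t : List (L × Bool)) : lab (s ++ t) = lab s ++ lab t :=
  List.map_append

theorem count_blk (c : V → Bool) (p : V × Bool) (v : V) (i : Bool) :
    @List.count (V × Bool) instBEqOfDecidableEq (v, i) (lab (blk c p)) =
      if p.1 = v then 1 else 0 := by
  rw [count_lab, filter_blk]
  split_ifs <;> rfl

theorem pr_dw_ne (c : V → Bool) (s : List (V × Bool)) {v w : V} (hvw : v ≠ w) (i j : Bool) :
    pr (lab (dw c s)) (v, i) (w, j) = pr (lab s) v w := by
  induction s with
  | nil => rfl
  | cons p s ih =>
    rw [dw_cons, lab_append, pr_append, ih, count_blk, count_dw]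
    have h1 : pr (lab (blk c p)) (v, i) (w, j) = 0 := by
      by_cases h : p.1 = v
      · apply pr_right
        rw [count_blk, if_neg fun h' => hvw (h.symm.trans h')]
      · apply pr_left
        rw [count_blk, if_neg h]
    have h2 : lab (p :: s) = p.1 :: lab s := rfl
    rw [h1, h2, pr]
    by_cases h : p.1 = v
    · simp [h]; ring
    · simp [h]

theorem pr_filter {L : Type} [DecidableEq L] (s : List L) (P : L → Bool) {u v : L}
    (hu : P u = true) (hv : P v = true) : pr (s.filter P) u v = pr s u v := by
  induction s with
  | nil => rfl
  | cons w s ih =>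
    rw [List.filter_cons, pr]
    by_cases h : P w = true
    · rw [if_pos h, pr, ih, List.count_filter hv]
    · rw [if_neg h, ih]
      have : ¬ w = u := fun h' => h (h' ▸ hu)
      simp [this]

theorem lab_filter {L : Type} (s : List (L × Bool)) (P : L → Bool) :
    (lab s).filter P = lab (s.filter (fun p => P p.1)) := by
  unfold lab
  rw [List.filter_map]
  rfl

theorem filter_dw' (c : V → Bool) (s : List (V × Bool)) (v : V) :
    (dw c s).filter (fun q => q.1.1 = v) = dw c (s.filter (fun p => p.1 = v)) := by
  induction s with
  | nil => rfl
  | cons p s ih =>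
    rw [dw_cons, List.filter_append, ih, List.filter_cons]
    by_cases h : p.1 = v
    · simp only [h, decide_true, if_true, dw_cons]
      congr 1
      rw [List.filter_eq_self]
      intro q hq
      unfold blk at hq
      split_ifs at hq
      · simp only [List.mem_cons, List.not_mem_nil, or_false] at hq
        rcases hq with rfl | rfl <;> simp [h]
      · simp only [List.mem_cons, List.not_mem_nil, or_false] at hq
        rcases hq with rfl | rfl <;> simp [h]
    · have h0 : (blk c p).filter (fun q => q.1.1 = v) = [] := by
        rw [List.filter_eq_nil_iff]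
        intro q hq
        unfold blk at hq
        split_ifs at hq
        · simp only [List.mem_cons, List.not_mem_nil, or_false] at hq
          rcases hq with rfl | rfl <;> simp [h]
        · simp only [List.mem_cons, List.not_mem_nil, or_false] at hq
          rcases hq with rfl | rfl <;> simp [h]
      simp [h, h0]

theorem pr_dw_eq (c : V → Bool) {s : List (V × Bool)} (h : Valid (univ : Finset V) s)
    (v : V) {i j : Bool} (hij : i ≠ j) :
    Odd (pr (lab (dw c s)) (v, i) (v, j)) ↔ c v = true := by
  rw [← pr_filter (lab (dw c s)) (fun q => decide (q.1 = v)) (by simp) (by simp), lab_filter,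
    filter_dw', h v, if_pos (Finset.mem_univ v)]
  unfold dw
  cases i <;> cases j
  · exact absurd rfl hij
  · cases hc : c v
    · simp [blk, hc, lab, pr, Nat.odd_iff]
    · simp [blk, hc, lab, pr, Nat.odd_iff]
  · cases hc : c v
    · simp [blk, hc, lab, pr, Nat.odd_iff]
    · simp [blk, hc, lab, pr, Nat.odd_iff]
  · exact absurd rfl hij

end Double

section Graph
variable {n : ℕ}

theorem valid_ori {D : List (Fin n)} (hD : IsChordDiagram D) :
    Valid (univ : Finset (Fin n)) (ori ∅ D) := by
  intro v
  rw [if_pos (Finset.mem_univ v)]
  exact filter_ori_not_mem v D ∅ (by simp) (hD v)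

theorem inter_iff {D : List (Fin n)} (hD : IsChordDiagram D) (u v : Fin n) (huv : u ≠ v) :
    (interGraph D).Adj u v ↔ Odd (pr D u v) := by
  have h1 : pr D u v = pr (D.filter (fun x => x = u ∨ x = v)) u v :=
    (pr_filter D _ (by simp) (by simp)).symm
  have h2 : (D.filter (fun x => x = u ∨ x = v)).count u = 2 := by
    rw [List.count_filter (by simp)]; exact hD u
  have h3 : (D.filter (fun x => x = u ∨ x = v)).count v = 2 := by
    rw [List.count_filter (by simp)]; exact hD v
  have h4 : ∀ x ∈ D.filter (fun x => x = u ∨ x = v), x = u ∨ x = v := by
    intro x hx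
    simpa using (List.mem_filter.1 hx).2
  have hvu : ¬ v = u := fun h => huv h.symm
  have h5 : (D.filter (fun x => x = u ∨ x = v)).length = 4 := by
    have key : ∀ t : List (Fin n), (∀ x ∈ t, x = u ∨ x = v) → t.length = t.count u + t.count v := by
      intro t
      induction t with
      | nil => intro _; rfl
      | cons w t ih =>
        intro h
        rw [List.length_cons, ih fun x hx => h x (List.mem_cons_of_mem _ hx), List.count_cons,
          List.count_cons]
        rcases h w List.mem_cons_self with rfl | rfl
        · simp [huv]; ring
        · simp [hvu]; ring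
    rw [key _ h4, h2, h3]
  change (u ≠ v ∧ (D.filter (fun x => x = u ∨ x = v) = [u, v, u, v] ∨
    D.filter (fun x => x = u ∨ x = v) = [v, u, v, u])) ↔ _
  rw [h1]
  generalize D.filter (fun x => x = u ∨ x = v) = t at *
  match t, h5 with
  | [a, b, c, d], _ =>
    have ha := h4 a (by simp)
    have hb := h4 b (by simp)
    have hc := h4 c (by simp)
    have hd := h4 d (by simp)
    rcases ha with rfl | rfl <;> rcases hb with rfl | rfl <;> rcases hc with rfl | rfl <;>
      rcases hd with rfl | rfl <;>
      simp_all [pr, Nat.odd_iff]

theorem rel_dw {D : List (Fin n)} (hD : IsChordDiagram D) (c : Fin n → Bool)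
    (p q : Fin n × Bool) :
    rel (lab (dw c (ori ∅ D))) p q ↔ dbl (interGraph D) c p q := by
  obtain ⟨v, i⟩ := p
  obtain ⟨w, j⟩ := q
  unfold rel dbl
  by_cases hvw : v = w
  · subst hvw
    by_cases hij : i = j
    · subst hij
      simp
    · rw [pr_dw_eq c (valid_ori hD) v hij]
      simp [hij]
  · rw [pr_dw_ne c _ hvw, lab_ori, inter_iff hD v w hvw]
    simp [hvw]

end Graph

end Pool.Agent.R806.Osc
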