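import Pool.Agent.R806.Osc.Cas

/-!
# The oscillator representation and the extension
-/

set_option autoImplicit false
set_option linter.unusedSectionVars false

namespace Pool.Agent.R806.Osc

open Finset Polynomial

section Oscillator
variable {A : Type} [Ring A] [Algebra ℂ A]

theorem dxx {x d : A} (hd : d * x - x * d = 1) : d * (x * x) = x * x * d + (2 : ℂ) • x := by
  have h : d * x = x * d + 1 := by rw [← hd]; abel
  rw [← mul_assoc, h, add_mul, one_mul, mul_assoc, h, mul_add, mul_one, ← mul_assoc, two_smul]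
  abel

theorem osc1 {x d : A} (hd : d * x - x * d = 1) :
    ((1 / 2 : ℂ) • (x * x)) * ((-1 / 2 : ℂ) • (d * d)) -
      ((-1 / 2 : ℂ) • (d * d)) * ((1 / 2 : ℂ) • (x * x)) = x * d + (1 / 2 : ℂ) • 1 := by
  have h : d * x = x * d + 1 := by rw [← hd]; abel
  have h1 : d * d * (x * x) = x * x * (d * d) + (4 : ℂ) • (x * d) + (2 : ℂ) • 1 := by
    have e1 := dxx hd
    rw [mul_assoc, e1, mul_add, mul_smul_comm, ← mul_assoc, e1, add_mul, smul_mul_assoc, h]
    rw [mul_assoc (x * x) d d]
    module
  rw [smul_mul_smul_comm, smul_mul_smul_comm, h1]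
  module

theorem osc2 {x d : A} (hd : d * x - x * d = 1) :
    (x * d + (1 / 2 : ℂ) • 1) * ((1 / 2 : ℂ) • (x * x)) -
      ((1 / 2 : ℂ) • (x * x)) * (x * d + (1 / 2 : ℂ) • 1) =
      (2 : ℂ) • ((1 / 2 : ℂ) • (x * x)) := by
  have h : d * x = x * d + 1 := by rw [← hd]; abel
  have e1 := dxx hd
  have e2 : x * d * (x * x) = x * x * x * d + (2 : ℂ) • (x * x) := by
    rw [mul_assoc x d, e1, mul_add, mul_smul_comm]
    simp only [mul_assoc]
  have e3 : x * x * (x * d) = x * x * x * d := by simp only [mul_assoc]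
  simp only [add_mul, mul_add, smul_mul_assoc, mul_smul_comm, one_mul, mul_one, e2, e3]
  module

theorem osc3 {x d : A} (hd : d * x - x * d = 1) :
    (x * d + (1 / 2 : ℂ) • 1) * ((-1 / 2 : ℂ) • (d * d)) -
      ((-1 / 2 : ℂ) • (d * d)) * (x * d + (1 / 2 : ℂ) • 1) =
      (-2 : ℂ) • ((-1 / 2 : ℂ) • (d * d)) := by
  have h : d * x = x * d + 1 := by rw [← hd]; abel
  have e1 : d * d * (x * d) = x * d * (d * d) + (2 : ℂ) • (d * d) := by
    have e0 : d * d * x = x * d * d + (2 : ℂ) • d := by
      rw [mul_assoc, h, mul_add, mul_one, ← mul_assoc, h, add_mul, one_mul, two_smul]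
      abel
    rw [← mul_assoc (d * d) x d, e0, add_mul, smul_mul_assoc]
    simp only [mul_assoc]
  simp only [add_mul, mul_add, smul_mul_assoc, mul_smul_comm, one_mul, mul_one, e1]
  module

/-- The oscillator representation. -/
noncomputable def osc {x d : A} (hd : d * x - x * d = 1) : U →ₐ[ℂ] A :=
  rep ((1 / 2 : ℂ) • (x * x)) ((-1 / 2 : ℂ) • (d * d)) (x * d + (1 / 2 : ℂ) • 1)
    (osc1 hd) (osc2 hd) (osc3 hd)

theorem osc_casimir {x d : A} (hd : d * x - x * d = 1) :
    osc hd casimir = (-3 / 32 : ℂ) • 1 := by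
  have h : d * x = x * d + 1 := by rw [← hd]; abel
  have h1 : d * d * (x * x) = x * x * (d * d) + (4 : ℂ) • (x * d) + (2 : ℂ) • 1 := by
    have e1 := dxx hd
    rw [mul_assoc, e1, mul_add, mul_smul_comm, ← mul_assoc, e1, add_mul, smul_mul_assoc, h]
    rw [mul_assoc (x * x) d d]
    module
  have h2 : x * d * (x * d) = x * x * (d * d) + x * d := by
    rw [mul_assoc, ← mul_assoc d x d, h, add_mul, one_mul, mul_add, mul_assoc x d d,
      ← mul_assoc x x]
  unfold osc
  rw [rep_casimir, smul_mul_smul_comm, smul_mul_smul_comm, h1, add_mul, mul_add, mul_add, h2,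
    mul_smul_comm, smul_mul_assoc, smul_mul_smul_comm, mul_one, one_mul, mul_one]
  module

theorem osc_frame {x d : A} (hd : d * x - x * d = 1) (k : Fin 3) :
    osc hd (frame k) = ∑ μ, gam k μ • uu x d μ := by
  have h : d * x = x * d + 1 := by rw [← hd]; abel
  have e0 : frame 0 = E + F := rfl
  have e1 : frame 1 = Complex.I • (E - F) := rfl
  have e2 : frame 2 = H := rfl
  simp only [Fintype.sum_prod_type, Fintype.sum_bool]
  unfold osc
  fin_cases k
  · simp only [Fin.zero_eta, e0, map_add, rep_E, rep_F, gam, uu, zz]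
    simp
    module
  · simp only [Fin.mk_one, e1, map_smul, map_sub, rep_E, rep_F, gam, uu, zz]
    simp
    module
  · simp only [Fin.reduceFinMk, e2, rep_H, gam, uu, zz]
    simp only [if_true, Bool.false_eq_true, if_false, h]
    module

/-- The value of the weight system in the oscillator representation. -/
theorem osc_weight {x d : A} (hd : d * x - x * d = 1) {n : ℕ} {D : List (Fin n)}
    (hD : IsChordDiagram D) : osc hd (weight D) = xi0 (interGraph D) • 1 := by
  have hv := valid_ori hD
  have h1 : osc hd (weight D) = (1 / 8 : ℂ) ^ n • ∑ ψ : Fin n → Fin 3,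
      ((ori ∅ D).map (fun p => ∑ μ, gam (ψ p.1) μ • uu x d μ)).prod := by
    unfold weight
    rw [map_smul, map_sum]
    congr 1
    refine Finset.sum_congr rfl fun ψ _ => ?_
    rw [map_list_prod, List.map_map]
    have h2 : (ori ∅ D).map (fun p => ∑ μ, gam (ψ p.1) μ • uu x d μ) =
        (lab (ori ∅ D)).map (fun v => ∑ μ, gam (ψ v) μ • uu x d μ) := by
      unfold lab
      rw [List.map_map]
      rfl
    rw [h2, lab_ori]
    congr 1
    apply List.map_congr_left
    intro v _
    exact osc_frame hd (ψ v)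
  rw [h1, frame_sum x d hv, smul_smul]
  have h3 : ∀ c : Fin n → Bool, WW x d (univ : Finset (Fin n × Bool)) (dw c (ori ∅ D)) =
      ((1 / 4 : ℂ) ^ n * hh (dbl (interGraph D) c)) • (1 : A) := by
    intro c
    rw [main_word hd (2 * n) univ (dw c (ori ∅ D)) (by
      rw [Finset.card_univ, Fintype.card_prod, Fintype.card_fin, Fintype.card_bool, mul_comm])
      (valid_dw c hv), hh_congr (rel_dw hD c)]
    congr 2
    rw [Fintype.card_prod, Fintype.card_fin, Fintype.card_bool, mul_comm n 2, pow_mul, pow_mul,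
      ← mul_pow]
    norm_num
  rw [Finset.sum_congr rfl fun c _ => h3 c, ← Finset.sum_smul, smul_smul]
  congr 1
  unfold xi0
  rw [Fintype.card_fin, ← Finset.mul_sum, ← mul_assoc, ← mul_pow, ← mul_pow]
  norm_num
  refine Finset.sum_congr ?_ fun _ _ => rfl
  ext
  simp

end Oscillator

section Weyl

/-- Multiplication by the variable. -/
noncomputable def opX : Module.End ℂ ℂ[X] := LinearMap.mulLeft ℂ (X : ℂ[X])

/-- The derivative. -/
noncomputable def opD : Module.End ℂ ℂ[X] := Polynomial.derivative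

theorem op_comm : opD * opX - opX * opD = 1 := by
  apply LinearMap.ext
  intro p
  simp only [LinearMap.sub_apply, Module.End.mul_apply, Module.End.one_apply, opX, opD,
    LinearMap.mulLeft_apply]
  rw [Polynomial.derivative_mul, Polynomial.derivative_X]
  ring

theorem smul_one_inj {a b : ℂ} (h : a • (1 : Module.End ℂ ℂ[X]) = b • 1) : a = b := by
  have h1 := congrArg (fun T : Module.End ℂ ℂ[X] => (T (1 : ℂ[X])).coeff 0) h
  simpa using h1

theorem aeval_smul_one {A : Type} [Ring A] [Algebra ℂ A] (c : ℂ) (P : ℂ[X]) :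
    aeval (c • (1 : A)) P = P.eval c • (1 : A) := by
  have h : (c • (1 : A)) = algebraMap ℂ A c := by rw [Algebra.algebraMap_eq_smul_one]
  rw [h, Polynomial.aeval_algebraMap_apply, Algebra.algebraMap_eq_smul_one]
  rfl

end Weyl

section Verma
variable {A : Type} [Ring A] [Algebra ℂ A]

theorem ver1 {x d : A} (hd : d * x - x * d = 1) (l : ℂ) :
    (x * x * d + l • x) * (-d) - (-d) * (x * x * d + l • x) = (2 : ℂ) • (x * d) + l • 1 := by
  have h : d * x = x * d + 1 := by rw [← hd]; abel
  have e1 := dxx hd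
  have e2 : d * (x * x * d) = x * x * d * d + (2 : ℂ) • (x * d) := by
    rw [← mul_assoc, e1, add_mul, smul_mul_assoc]
  rw [mul_neg, neg_mul, mul_add, add_mul, e2, mul_smul_comm, h, smul_mul_assoc]
  module

theorem ver2 {x d : A} (hd : d * x - x * d = 1) (l : ℂ) :
    ((2 : ℂ) • (x * d) + l • 1) * (x * x * d + l • x) -
      (x * x * d + l • x) * ((2 : ℂ) • (x * d) + l • 1) = (2 : ℂ) • (x * x * d + l • x) := by
  have h : d * x = x * d + 1 := by rw [← hd]; abel
  have e1 := dxx hd
  have e2 : x * d * (x * x * d) = x * x * x * d * d + (2 : ℂ) • (x * x * d) := by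
    rw [mul_assoc x d, ← mul_assoc d, e1, add_mul, smul_mul_assoc, mul_add, mul_smul_comm]
    simp only [mul_assoc]
  have e3 : x * x * d * (x * d) = x * x * x * d * d + x * x * d := by
    rw [mul_assoc (x * x) d, ← mul_assoc d x d, h, add_mul, one_mul, mul_add]
    simp only [mul_assoc]
  have e4 : x * d * x = x * x * d + x := by
    rw [mul_assoc, h, mul_add, mul_one, ← mul_assoc]
  have e5 : x * (x * d) = x * x * d := (mul_assoc _ _ _).symm
  simp only [add_mul, mul_add, smul_mul_assoc, mul_smul_comm, one_mul, mul_one, e2, e3, e4, e5]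
  module

theorem ver3 {x d : A} (hd : d * x - x * d = 1) (l : ℂ) :
    ((2 : ℂ) • (x * d) + l • 1) * (-d) - (-d) * ((2 : ℂ) • (x * d) + l • 1) =
      (-2 : ℂ) • (-d) := by
  have h : d * x = x * d + 1 := by rw [← hd]; abel
  have e1 : d * (x * d) = x * d * d + d := by
    rw [← mul_assoc, h, add_mul, one_mul]
  simp only [add_mul, mul_add, smul_mul_assoc, mul_smul_comm, one_mul, mul_one, mul_neg, neg_mul,
    e1]
  module

noncomputable def ver {x d : A} (hd : d * x - x * d = 1) (l : ℂ) : U →ₐ[ℂ] A :=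
  rep _ _ _ (ver1 hd l) (ver2 hd l) (ver3 hd l)

theorem ver_casimir {x d : A} (hd : d * x - x * d = 1) (l : ℂ) :
    ver hd l casimir = (l * (l - 2) / 8) • (1 : A) := by
  have h : d * x = x * d + 1 := by rw [← hd]; abel
  have e1 := dxx hd
  have e2 : d * (x * x * d) = x * x * d * d + (2 : ℂ) • (x * d) := by
    rw [← mul_assoc, e1, add_mul, smul_mul_assoc]
  have e3 : x * d * (x * d) = x * x * d * d + x * d := by
    rw [mul_assoc x d, ← mul_assoc d x d, h, add_mul, one_mul, mul_add]
    simp only [mul_assoc]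
  unfold ver
  rw [rep_casimir]
  simp only [add_mul, mul_add, smul_mul_assoc, mul_smul_comm, one_mul, mul_one, mul_neg, neg_mul,
    e2, e3, h]
  module

theorem aeval_inj {P Q : ℂ[X]} (h : aeval casimir P = aeval casimir Q) : P = Q := by
  apply Polynomial.funext
  intro c
  obtain ⟨z, hz⟩ := IsAlgClosed.exists_pow_nat_eq (1 + 8 * c) (n := 2) (by norm_num)
  have h1 := congrArg (ver op_comm (1 + z)) h
  rw [← Polynomial.aeval_algHom_apply, ← Polynomial.aeval_algHom_apply, ver_casimir,
    aeval_smul_one, aeval_smul_one] at h1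
  have h2 := smul_one_inj h1
  have h3 : (1 + z) * (1 + z - 2) / 8 = c := by linear_combination hz / 8
  rwa [h3] at h2

end Verma

theorem weight_mem {n : ℕ} {D : List (Fin n)} (hD : IsChordDiagram D) :
    ∃ P : ℂ[X], aeval casimir P = weight D := by
  have h0 : (∑ i, frame i * frame i) = (8 : ℂ) • casimir := by
    have e0 : frame 0 = E + F := rfl
    have e1 : frame 1 = Complex.I • (E - F) := rfl
    have e2 : frame 2 = H := rfl
    rw [Fin.sum_univ_three, e0, e1, e2, casimir, smul_mul_smul_comm, Complex.I_mul_I]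
    simp only [add_mul, mul_add, sub_mul, mul_sub]
    module
  have h1 := W3_mem frame_comm D.length D rfl (fun v => Or.inr (hD v))
  rw [h0] at h1
  have h2 : Algebra.adjoin ℂ {(8 : ℂ) • casimir} ≤ Algebra.adjoin ℂ {casimir} := by
    apply Algebra.adjoin_le
    rintro y hy
    rw [Set.mem_singleton_iff] at hy
    subst hy
    exact Subalgebra.smul_mem _ (Algebra.subset_adjoin (Set.mem_singleton _)) _
  have h3 : weight D ∈ Algebra.adjoin ℂ {casimir} := by
    unfold weight
    exact Subalgebra.smul_mem _ (h2 h1) _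
  rw [Algebra.adjoin_singleton_eq_range_aeval] at h3
  obtain ⟨P, hP⟩ := h3
  exact ⟨P, hP⟩

open scoped Classical in
/-- The extension. -/
noncomputable def xi (V : Type) [Finite V] (G : SimpleGraph V) : ℂ :=
  @xi0 V (Fintype.ofFinite V) G

theorem xi_four : IsFourInvariant xi where
  iso := by
    rintro V W _ _ G H ⟨e⟩
    have := Fintype.ofFinite V
    have := Fintype.ofFinite W
    unfold xi
    exact @xi0_iso V W (Fintype.ofFinite V) (Fintype.ofFinite W) G H e
  fourTerm := by
    intro V _ G a b hab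
    unfold xi
    exact @xi0_four V (Fintype.ofFinite V) G a b hab

theorem xi_weight {n : ℕ} {D : List (Fin n)} (hD : IsChordDiagram D) (P : ℂ[X])
    (hP : aeval casimir P = weight D) : xi (Fin n) (interGraph D) = P.eval (-3 / 32) := by
  have h1 := congrArg (osc op_comm) hP
  rw [← Polynomial.aeval_algHom_apply, osc_casimir, aeval_smul_one, osc_weight op_comm hD] at h1
  have h2 := smul_one_inj h1
  rw [h2]
  unfold xi
  congr 1
  exact Subsingleton.elim _ _

end Pool.Agent.R806.Osc
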