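import Mathlib

/-!
# Spin models with `N` colours, evaluated at `N = -2`
-/

set_option autoImplicit false

namespace Pool.Agent.R806.Osc

open Finset Polynomial
open scoped Classical

/-- Splitting off two rows and columns of a double product. -/
theorem split2 {V : Type*} [Fintype V] {a b : V} (hab : a ≠ b) (w : V → V → ℂ) :
    ∏ u, ∏ v, w u v = (w a a * w a b * w b a * w b b) *
      (∏ v ∈ (univ.erase a).erase b, (w a v * w v a) * (w b v * w v b)) *
      ∏ u ∈ (univ.erase a).erase b, ∏ v ∈ (univ.erase a).erase b, w u v := by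
  have key : ∀ g : V → ℂ, ∏ v, g v = g a * g b * ∏ v ∈ (univ.erase a).erase b, g v := by
    intro g
    rw [← Finset.mul_prod_erase univ g (Finset.mem_univ a),
      ← Finset.mul_prod_erase (univ.erase a) g (a := b)
        (Finset.mem_erase.2 ⟨hab.symm, Finset.mem_univ b⟩), mul_assoc]
  rw [key]
  simp only [key (w a), key (w b)]
  have h3 : ∏ u ∈ (univ.erase a).erase b, ∏ v, w u v =
      (∏ u ∈ (univ.erase a).erase b, w u a) * (∏ u ∈ (univ.erase a).erase b, w u b) *
        ∏ u ∈ (univ.erase a).erase b, ∏ v ∈ (univ.erase a).erase b, w u v := by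
    rw [← Finset.prod_mul_distrib, ← Finset.prod_mul_distrib]
    exact Finset.prod_congr rfl fun u _ => key (w u)
  rw [h3]
  simp only [Finset.prod_mul_distrib]
  ring

/-- Two polynomials which agree at all natural numbers are equal. -/
theorem poly_ext {p q : ℂ[X]} (h : ∀ N : ℕ, p.eval (N : ℂ) = q.eval (N : ℂ)) : p = q := by
  apply Polynomial.eq_of_infinite_eval_eq
  refine Set.Infinite.mono (s := Set.range (fun N : ℕ => (N : ℂ))) ?_ ?_
  · rintro x ⟨N, rfl⟩
    exact h N
  · exact Set.infinite_range_of_injective Nat.cast_injective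

section Count
variable {L : Type} [Fintype L]

/-- Functions with a given kernel are injections of the quotient. -/
noncomputable def kerEquiv (s : Setoid L) (C : Type) :
    {f : L → C // Setoid.ker f = s} ≃ (Quotient s ↪ C) where
  toFun f := ⟨Quotient.lift f.1 (fun x y h => by
      have h1 : (Setoid.ker f.1) x y := by rw [f.2]; exact h
      exact h1), by
    intro p q
    refine Quotient.inductionOn₂ p q fun x y h => ?_
    apply Quotient.sound
    have h1 : (Setoid.ker f.1) x y := h
    rw [f.2] at h1
    exact h1⟩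
  invFun g := ⟨fun x => g ⟦x⟧, by
    ext x y
    change g ⟦x⟧ = g ⟦y⟧ ↔ _
    rw [g.injective.eq_iff, Quotient.eq]⟩
  left_inv f := by
    apply Subtype.ext
    rfl
  right_inv g := by
    ext x
    refine Quotient.inductionOn x fun x => ?_
    rfl

theorem exists_poly (w : Setoid L → ℂ) :
    ∃ p : ℂ[X], ∀ N : ℕ, p.eval (N : ℂ) = ∑ f : L → Fin N, w (Setoid.ker f) := by
  have : Finite (Setoid L) := Finite.of_injective (fun s : Setoid L => fun x y => s x y) (by
    intro s t h
    ext x y
    exact iff_of_eq (congrFun (congrFun h x) y))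
  have : Fintype (Setoid L) := Fintype.ofFinite _
  refine ⟨∑ s : Setoid L, Polynomial.C (w s) * descPochhammer ℂ (Fintype.card (Quotient s)), ?_⟩
  intro N
  rw [Polynomial.eval_finsetSum]
  rw [← Finset.sum_fiberwise (s := (univ : Finset (L → Fin N))) (g := fun f => Setoid.ker f)]
  refine Finset.sum_congr rfl fun s _ => ?_
  rw [Polynomial.eval_mul, Polynomial.eval_C, descPochhammer_eval_eq_descFactorial]
  have h1 : ∑ f ∈ (univ : Finset (L → Fin N)) with Setoid.ker f = s, w (Setoid.ker f) =
      ∑ f ∈ (univ : Finset (L → Fin N)) with Setoid.ker f = s, w s := by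
    refine Finset.sum_congr rfl fun f hf => ?_
    rw [(Finset.mem_filter.1 hf).2]
  rw [h1, Finset.sum_const, nsmul_eq_mul, mul_comm]
  congr 1
  norm_cast
  rw [← Fintype.card_subtype, Fintype.card_congr (kerEquiv s (Fin N)), Fintype.card_embedding_eq,
    Fintype.card_fin]

end Count

section Psi
variable {L : Type} [Fintype L]

/-- The weight of a colouring: a factor `I` for every ordered pair of related points of the same
colour. -/
noncomputable def cell (R : L → L → Prop) {C : Type} (f : L → C) (u v : L) : ℂ :=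
  if R u v ∧ f u = f v then Complex.I else 1

omit [Fintype L] in
theorem cell_pos {R : L → L → Prop} {C : Type} {f : L → C} {u v : L} (h : R u v)
    (h' : f u = f v) : cell R f u v = Complex.I := if_pos ⟨h, h'⟩

omit [Fintype L] in
theorem cell_neg {R : L → L → Prop} {C : Type} {f : L → C} {u v : L} (h : ¬ R u v) :
    cell R f u v = 1 := if_neg fun h' => h h'.1

omit [Fintype L] in
theorem cell_ne {R : L → L → Prop} {C : Type} {f : L → C} {u v : L} (h : f u ≠ f v) :
    cell R f u v = 1 := if_neg fun h' => h h'.2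

omit [Fintype L] in
theorem cell_congr {R R' : L → L → Prop} {C : Type} {f : L → C} {u v u' v' : L}
    (h : R u v ↔ R' u' v') (h' : f u = f v ↔ f u' = f v') :
    cell R f u v = cell R' f u' v' := by
  unfold cell
  by_cases h1 : R u v ∧ f u = f v
  · rw [if_pos h1, if_pos ⟨h.1 h1.1, h'.1 h1.2⟩]
  · rw [if_neg h1, if_neg fun h2 => h1 ⟨h.2 h2.1, h'.2 h2.2⟩]

noncomputable def wt (R : L → L → Prop) {C : Type} (f : L → C) : ℂ :=
  ∏ u, ∏ v, cell R f u v

noncomputable def psi (R : L → L → Prop) (N : ℕ) : ℂ := ∑ f : L → Fin N, wt R f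

theorem psi_poly (R : L → L → Prop) : ∃ p : ℂ[X], ∀ N : ℕ, p.eval (N : ℂ) = psi R N := by
  obtain ⟨p, hp⟩ := exists_poly (L := L)
    (fun s => ∏ u, ∏ v, if R u v ∧ s u v then Complex.I else 1)
  exact ⟨p, fun N => by rw [hp N]; rfl⟩

/-- The polynomial in the number of colours. -/
noncomputable def pol (R : L → L → Prop) : ℂ[X] := Classical.choose (psi_poly R)

theorem pol_eval (R : L → L → Prop) (N : ℕ) : (pol R).eval (N : ℂ) = psi R N :=
  Classical.choose_spec (psi_poly R) N

/-- The value at `N = -2`. -/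
noncomputable def hh (R : L → L → Prop) : ℂ := (pol R).eval (-2)

theorem hh_congr {R R' : L → L → Prop} (h : ∀ u v, R u v ↔ R' u v) : hh R = hh R' := by
  have : R = R' := by
    funext u v
    exact propext (h u v)
  rw [this]

theorem hh_empty {R : L → L → Prop} (h : ∀ u v, ¬ R u v) :
    hh R = (-2) ^ Fintype.card L := by
  have : pol R = X ^ Fintype.card L := by
    apply poly_ext
    intro N
    rw [pol_eval]
    simp [psi, wt, cell_neg (h _ _)]
  rw [hh, this]
  simp

theorem sum_free (b : L) {C : Type} [Fintype C] (F : (L → C) → ℂ)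
    (hF : ∀ f c, F (Function.update f b c) = F f) (φ : (L → C) → C)
    (hφ : ∀ f c, φ (Function.update f b c) = φ f) :
    (Fintype.card C : ℂ) * ∑ f : L → C, (if f b = φ f then F f else 0) = ∑ f, F f := by
  have h0 : ∀ H : (L → C) → ℂ, ∑ f, H f =
      ∑ g : {j // j ≠ b} → C, ∑ c : C, H ((Equiv.funSplitAt b C).symm (c, g)) := by
    intro H
    rw [← (Equiv.funSplitAt b C).symm.sum_comp, Fintype.sum_prod_type, Finset.sum_comm]
  rw [h0, h0 F, Finset.mul_sum]
  refine Finset.sum_congr rfl fun g _ => ?_
  by_cases hC : IsEmpty C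
  · simp
  · rw [not_isEmpty_iff] at hC
    obtain ⟨c0⟩ := hC
    have hu : ∀ c, (Equiv.funSplitAt b C).symm (c, g) =
        Function.update ((Equiv.funSplitAt b C).symm (c0, g)) b c := by
      intro c
      ext x
      by_cases hx : x = b
      · subst hx; simp [Equiv.funSplitAt]
      · simp [Equiv.funSplitAt, hx]
    have h2 : ∀ c, F ((Equiv.funSplitAt b C).symm (c, g)) =
        F ((Equiv.funSplitAt b C).symm (c0, g)) := fun c => by rw [hu c, hF]
    have h3 : ∀ c, φ ((Equiv.funSplitAt b C).symm (c, g)) =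
        φ ((Equiv.funSplitAt b C).symm (c0, g)) := fun c => by rw [hu c, hφ]
    have h4 : ∀ c, (Equiv.funSplitAt b C).symm (c, g) b = c := by
      intro c
      simp [Equiv.funSplitAt]
    simp only [h2, h3, h4]
    simp

/-- Toggling the relation of `a` and `b`. -/
theorem psi_toggle {a b : L} (hab : a ≠ b) (R R' Rm : L → L → Prop)
    (hs : R a b ↔ R b a) (h1 : R' a b ↔ ¬ R a b) (h2 : R' b a ↔ ¬ R b a)
    (h0 : ∀ u v, ¬ (u = a ∧ v = b) → ¬ (u = b ∧ v = a) → (R' u v ↔ R u v))
    (hm : ∀ u v, u ≠ a → u ≠ b → v ≠ a → v ≠ b → (Rm u v ↔ R u v))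
    (hb1 : ∀ u, ¬ Rm b u) (hb2 : ∀ u, ¬ Rm u b)
    (haa : ¬ R a a) (hbb : ¬ R b b) (haam : ¬ Rm a a)
    (ha1 : ∀ v, v ≠ a → v ≠ b → (Rm a v ↔ ¬ (R a v ↔ R b v)))
    (hsym : ∀ v, v ≠ a → v ≠ b → ((R a v ↔ R v a) ∧ (R b v ↔ R v b) ∧ (Rm a v ↔ Rm v a)))
    (N : ℕ) :
    (N : ℂ) * (psi R N - psi R' N) = 2 * (if R a b then -1 else 1) * psi Rm N := by
  have e1 : ∀ f : L → Fin N, wt R f - wt R' f =
      2 * (if R a b then -1 else 1) * (if f b = f a then wt Rm f else 0) := by
    intro f
    have hR : (∏ v ∈ (univ.erase a).erase b, (cell R' f a v *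
          cell R' f v a) *
          (cell R' f b v *
          cell R' f v b)) =
        (∏ v ∈ (univ.erase a).erase b, (cell R f a v *
          cell R f v a) *
          (cell R f b v *
          cell R f v b)) := by
      refine Finset.prod_congr rfl fun v hv => ?_
      have hvb := Finset.ne_of_mem_erase hv
      have hva := Finset.ne_of_mem_erase (Finset.mem_of_mem_erase hv)
      rw [cell_congr (h0 a v (fun h => hvb h.2) (fun h => hab h.1)) Iff.rfl,
        cell_congr (h0 v a (fun h => hva h.1) (fun h => hvb h.1)) Iff.rfl,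
        cell_congr (h0 b v (fun h => hab h.1.symm) (fun h => hva h.2)) Iff.rfl,
        cell_congr (h0 v b (fun h => hva h.1) (fun h => hvb h.1)) Iff.rfl]
    have hR2 : (∏ u ∈ (univ.erase a).erase b, ∏ v ∈ (univ.erase a).erase b,
          cell R' f u v) =
        (∏ u ∈ (univ.erase a).erase b, ∏ v ∈ (univ.erase a).erase b,
          cell R f u v) := by
      refine Finset.prod_congr rfl fun u hu => Finset.prod_congr rfl fun v hv => ?_
      have hub := Finset.ne_of_mem_erase hu
      have hua := Finset.ne_of_mem_erase (Finset.mem_of_mem_erase hu)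
      exact cell_congr (h0 u v (fun h => hua h.1) (fun h => hub h.1)) Iff.rfl
    have haa' : ¬ R' a a := by
      rw [h0 a a (fun h => hab h.2) (fun h => hab h.1)]; exact haa
    have hbb' : ¬ R' b b := by
      rw [h0 b b (fun h => hab h.1.symm) (fun h => hab h.2.symm)]; exact hbb
    unfold wt
    rw [split2 hab, split2 hab, hR, hR2]
    by_cases hf : f b = f a
    · rw [if_pos hf, split2 hab (cell Rm f)]
      have hM : (∏ v ∈ (univ.erase a).erase b, (cell Rm f a v *
          cell Rm f v a) *
          (cell Rm f b v *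
          cell Rm f v b)) =
        (∏ v ∈ (univ.erase a).erase b, (cell R f a v *
          cell R f v a) *
          (cell R f b v *
          cell R f v b)) := by
        refine Finset.prod_congr rfl fun v hv => ?_
        have hvb := Finset.ne_of_mem_erase hv
        have hva := Finset.ne_of_mem_erase (Finset.mem_of_mem_erase hv)
        obtain ⟨s1, s2, s3⟩ := hsym v hva hvb
        have s4 := ha1 v hva hvb
        rw [cell_congr (u := v) (v := a) (u' := a) (v' := v) s3.symm ⟨Eq.symm, Eq.symm⟩,
          cell_congr (u := v) (v := a) (u' := a) (v' := v) s1.symm ⟨Eq.symm, Eq.symm⟩,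
          cell_congr (u := v) (v := b) (u' := b) (v' := v) s2.symm ⟨Eq.symm, Eq.symm⟩,
          cell_neg (hb1 v), cell_neg (hb2 v)]
        by_cases hfv : f a = f v
        · have hfv2 : f b = f v := hf.trans hfv
          by_cases r1 : R a v
          · by_cases r2 : R b v
            · have r3 : ¬ Rm a v := fun h => (s4.1 h) ⟨fun _ => r2, fun _ => r1⟩
              rw [cell_pos r1 hfv, cell_pos r2 hfv2, cell_neg r3]
              simp
            · have r3 : Rm a v := s4.2 fun h => r2 (h.1 r1)
              rw [cell_pos r1 hfv, cell_neg r2, cell_pos r3 hfv]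
          · by_cases r2 : R b v
            · have r3 : Rm a v := s4.2 fun h => r1 (h.2 r2)
              rw [cell_neg r1, cell_pos r2 hfv2, cell_pos r3 hfv]
              simp
            · have r3 : ¬ Rm a v := fun h =>
                (s4.1 h) ⟨fun h' => absurd h' r1, fun h' => absurd h' r2⟩
              rw [cell_neg r1, cell_neg r2, cell_neg r3]
        · have hfv2 : ¬ f b = f v := fun h => hfv (hf.symm.trans h)
          rw [cell_ne hfv, cell_ne hfv, cell_ne hfv2]
      have hM2 : (∏ u ∈ (univ.erase a).erase b, ∏ v ∈ (univ.erase a).erase b,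
          cell Rm f u v) =
        (∏ u ∈ (univ.erase a).erase b, ∏ v ∈ (univ.erase a).erase b,
          cell R f u v) := by
        refine Finset.prod_congr rfl fun u hu => Finset.prod_congr rfl fun v hv => ?_
        have hub := Finset.ne_of_mem_erase hu
        have hua := Finset.ne_of_mem_erase (Finset.mem_of_mem_erase hu)
        have hvb := Finset.ne_of_mem_erase hv
        have hva := Finset.ne_of_mem_erase (Finset.mem_of_mem_erase hv)
        exact cell_congr (hm u v hua hub hva hvb) Iff.rfl
      rw [hM, hM2]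
      rw [cell_neg haa, cell_neg hbb, cell_neg haa', cell_neg hbb', cell_neg haam,
        cell_neg (hb1 a), cell_neg (hb1 b), cell_neg (hb2 a)]
      generalize (∏ v ∈ (univ.erase a).erase b, (cell R f a v * cell R f v a) *
          (cell R f b v * cell R f v b)) = P
      generalize (∏ u ∈ (univ.erase a).erase b,
          ∏ v ∈ (univ.erase a).erase b, cell R f u v) = Q
      by_cases r : R a b
      · have r' := hs.1 r
        have q : ¬ R' a b := fun h => h1.1 h r
        have q' : ¬ R' b a := fun h => h2.1 h r'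
        rw [cell_pos r hf.symm, cell_pos r' hf, cell_neg q, cell_neg q', if_pos r]
        linear_combination P * Q * Complex.I_mul_I
      · have r' : ¬ R b a := fun h => r (hs.2 h)
        have q : R' a b := h1.2 r
        have q' : R' b a := h2.2 r'
        rw [cell_neg r, cell_neg r', cell_pos q hf.symm, cell_pos q' hf, if_neg r]
        linear_combination -P * Q * Complex.I_mul_I
    · have hf' : ¬ f a = f b := fun h => hf h.symm
      rw [cell_neg haa, cell_neg hbb, cell_neg haa', cell_neg hbb', cell_ne hf, cell_ne hf',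
        cell_ne hf, cell_ne hf', if_neg hf]
      ring
  have e2 := sum_free (C := Fin N) b (fun f => wt Rm f) (by
    intro f c
    unfold wt
    refine Finset.prod_congr rfl fun u _ => Finset.prod_congr rfl fun v _ => ?_
    by_cases hu : u = b
    · subst hu; rw [cell_neg (hb1 _), cell_neg (hb1 _)]
    · by_cases hv : v = b
      · subst hv; rw [cell_neg (hb2 _), cell_neg (hb2 _)]
      · unfold cell
        rw [Function.update_of_ne hu, Function.update_of_ne hv]) (fun f => f a) (by
    intro f c
    rw [Function.update_of_ne hab])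
  rw [Fintype.card_fin] at e2
  have e3 : psi R N - psi R' N = 2 * (if R a b then -1 else 1) *
      ∑ f : L → Fin N, (if f b = f a then wt Rm f else 0) := by
    unfold psi
    rw [← Finset.sum_sub_distrib, Finset.mul_sum]
    exact Finset.sum_congr rfl fun f _ => e1 f
  have e4 : psi Rm N = (N : ℂ) * ∑ f : L → Fin N, (if f b = f a then wt Rm f else 0) := by
    unfold psi
    rw [← e2]
    congr 1
    refine Finset.sum_congr rfl fun f _ => ?_
    by_cases h : f b = f a
    · rw [if_pos h, if_pos h]
    · rw [if_neg h, if_neg h]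
  rw [e3, e4]
  ring

/-- The exchange relation at `N = -2`. -/
theorem hh_toggle {a b : L} (hab : a ≠ b) (R R' Rm : L → L → Prop)
    (hs : R a b ↔ R b a) (h1 : R' a b ↔ ¬ R a b) (h2 : R' b a ↔ ¬ R b a)
    (h0 : ∀ u v, ¬ (u = a ∧ v = b) → ¬ (u = b ∧ v = a) → (R' u v ↔ R u v))
    (hm : ∀ u v, u ≠ a → u ≠ b → v ≠ a → v ≠ b → (Rm u v ↔ R u v))
    (hb1 : ∀ u, ¬ Rm b u) (hb2 : ∀ u, ¬ Rm u b)
    (haa : ¬ R a a) (hbb : ¬ R b b) (haam : ¬ Rm a a)
    (ha1 : ∀ v, v ≠ a → v ≠ b → (Rm a v ↔ ¬ (R a v ↔ R b v)))
    (hsym : ∀ v, v ≠ a → v ≠ b → ((R a v ↔ R v a) ∧ (R b v ↔ R v b) ∧ (Rm a v ↔ Rm v a))) :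
    hh R - hh R' = -(if R a b then -1 else 1) * hh Rm := by
  have h : X * (pol R - pol R') = Polynomial.C (2 * (if R a b then -1 else 1)) * pol Rm := by
    apply poly_ext
    intro N
    rw [Polynomial.eval_mul, Polynomial.eval_X, Polynomial.eval_sub, pol_eval, pol_eval,
      Polynomial.eval_mul, Polynomial.eval_C, pol_eval]
    exact psi_toggle hab R R' Rm hs h1 h2 h0 hm hb1 hb2 haa hbb haam ha1 hsym N
  have h' := congrArg (Polynomial.eval (-2)) h
  rw [Polynomial.eval_mul, Polynomial.eval_X, Polynomial.eval_sub, Polynomial.eval_mul,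
    Polynomial.eval_C] at h'
  unfold hh
  linear_combination (-1/2) * h'

end Psi

end Pool.Agent.R806.Osc
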