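import Pool.Agent.R806.Osc.Dbl

/-!
# Representations of `sl(2)` and the value of the weight system in the oscillator representation
-/

set_option autoImplicit false
set_option linter.unusedSectionVars false

namespace Pool.Agent.R806.Osc

open Finset

section Expand

theorem expand {P M A : Type} [Fintype P] [DecidableEq P] [Fintype M] [Ring A] [Algebra ℂ A]
    (s : List P) (hn : s.Nodup) (hc : ∀ p, p ∈ s) (y : P → M → ℂ) (u : M → A) :
    (s.map (fun p => ∑ μ, y p μ • u μ)).prod =
      ∑ r : P → M, (∏ p, y p (r p)) • (s.map (fun p => u (r p))).prod := by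
  set e := hn.getEquivOfForallMemList s hc with he
  have key : ∀ g : P → A, (s.map g).prod =
      MultilinearMap.mkPiAlgebraFin ℂ s.length A (fun i => g (e i)) := by
    intro g
    rw [MultilinearMap.mkPiAlgebraFin_apply]
    congr 1
    apply List.ext_getElem
    · simp
    · intro i h1 h2
      simp [he]
  rw [key, MultilinearMap.map_sum]
  rw [← (Equiv.arrowCongr e (Equiv.refl M)).sum_comp]
  refine Finset.sum_congr rfl fun r _ => ?_
  rw [MultilinearMap.map_smul_univ, key]
  have h1 : ∀ p, (Equiv.arrowCongr e (Equiv.refl M)) r p = r (e.symm p) := fun p => rfl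
  congr 1
  · rw [← e.prod_comp]
    refine Finset.prod_congr rfl fun i _ => ?_
    rw [h1, Equiv.symm_apply_apply]
  · congr 1
    funext i
    rw [h1, Equiv.symm_apply_apply]

theorem gen {V K M A : Type} [Fintype V] [DecidableEq V] [Fintype K] [Fintype M] [Ring A]
    [Algebra ℂ A] (s : List (V × Bool)) (hn : s.Nodup) (hc : ∀ p, p ∈ s) (u : M → A)
    (α β : K → M → ℂ) :
    ∑ ψ : V → K, (s.map (fun p => ∑ μ, (if p.2 = true then β (ψ p.1) μ
      else α (ψ p.1) μ) • u μ)).prod =
    ∑ r : V × Bool → M, (∏ v, ∑ k, α k (r (v, false)) * β k (r (v, true))) •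
      (s.map (fun p => u (r p))).prod := by
  have h1 : ∀ ψ : V → K, (s.map (fun p => ∑ μ, (if p.2 = true then β (ψ p.1) μ
      else α (ψ p.1) μ) • u μ)).prod =
      ∑ r : V × Bool → M, (∏ v, α (ψ v) (r (v, false)) * β (ψ v) (r (v, true))) •
        (s.map (fun p => u (r p))).prod := by
    intro ψ
    rw [expand s hn hc (fun p μ => if p.2 = true then β (ψ p.1) μ else α (ψ p.1) μ) u]
    refine Finset.sum_congr rfl fun r _ => ?_
    congr 1
    rw [Fintype.prod_prod_type]
    refine Finset.prod_congr rfl fun v _ => ?_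
    rw [Fintype.prod_bool]
    simp [mul_comm]
  rw [Finset.sum_congr rfl fun ψ _ => h1 ψ, Finset.sum_comm]
  refine Finset.sum_congr rfl fun r _ => ?_
  rw [← Finset.sum_smul]
  congr 1
  have h2 := Finset.prod_univ_sum (fun _ : V => (univ : Finset K))
    (fun v k => α k (r (v, false)) * β k (r (v, true)))
  rw [Fintype.piFinset_univ] at h2
  exact h2.symm

theorem prod_smul_list {P A : Type} [Fintype P] [DecidableEq P] [Ring A] [Algebra ℂ A]
    (s : List P) (hn : s.Nodup) (hc : ∀ p, p ∈ s) (y : P → ℂ) (g : P → A) :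
    (s.map (fun p => y p • g p)).prod = (∏ p, y p) • (s.map g).prod := by
  have h1 : ∀ t : List P, (t.map (fun p => y p • g p)).prod = (t.map y).prod • (t.map g).prod := by
    intro t
    induction t with
    | nil => simp
    | cons p t ih =>
      rw [List.map_cons, List.prod_cons, ih, List.map_cons, List.prod_cons, List.map_cons,
        List.prod_cons, smul_mul_smul_comm]
  rw [h1]
  congr 1
  rw [← List.prod_toFinset _ hn]
  congr 1
  ext p
  simp [hc p]

end Expand

section Osc
variable {A : Type} [Ring A] [Algebra ℂ A]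

def uu (x d : A) (μ : Bool × Bool) : A := zz x d μ.1 * zz x d μ.2

/-- The coefficients of the three elements of the frame. -/
noncomputable def gam (k : Fin 3) (μ : Bool × Bool) : ℂ :=
  match k, μ with
  | 0, (false, false) => 1 / 2
  | 0, (true, true) => -1 / 2
  | 1, (false, false) => Complex.I / 2
  | 1, (true, true) => Complex.I / 2
  | 2, (false, true) => 1 / 2
  | 2, (true, false) => 1 / 2
  | _, _ => 0

def flp (j : Bool × Bool × Bool) : Bool × Bool :=
  if j.1 = true then (!j.2.1, !j.2.2) else (!j.2.2, !j.2.1)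

noncomputable def al (j : Bool × Bool × Bool) (μ : Bool × Bool) : ℂ := if μ = j.2 then 1 else 0

noncomputable def be (j : Bool × Bool × Bool) (μ : Bool × Bool) : ℂ :=
  if μ = flp j then sg j.2.1 * sg j.2.2 else 0

theorem tensor_eq (μ ν : Bool × Bool) :
    ∑ k, gam k μ * gam k ν = (-1 / 4) * ∑ j, al j μ * be j ν := by
  obtain ⟨a, b⟩ := μ
  obtain ⟨c, e⟩ := ν
  rw [Fin.sum_univ_three]
  simp only [Fintype.sum_prod_type, Fintype.sum_bool]
  cases a <;> cases b <;> cases c <;> cases e <;>
    simp [gam, al, be, flp, sg] <;> ring_nf <;> (try rw [Complex.I_sq]) <;> norm_num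

theorem ev_dw {V : Type} (x d : A) (ψ : V × Bool → Bool) (c : V → Bool)
    (s : List (V × Bool)) : ev x d ψ (dw c s) =
    (s.map (fun p => if p.2 = true then
      uu x d (flp (c p.1, ψ (p.1, false), ψ (p.1, true)))
      else uu x d (ψ (p.1, false), ψ (p.1, true)))).prod := by
  induction s with
  | nil => rfl
  | cons p s ih =>
    unfold dw at ih ⊢
    rw [List.flatMap_cons]
    have h1 : ev x d ψ (blk c p ++ List.flatMap (blk c) s) =
        ev x d ψ (blk c p) * ev x d ψ (List.flatMap (blk c) s) := by
      unfold ev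
      rw [List.map_append, List.prod_append]
    rw [h1, ih, List.map_cons, List.prod_cons]
    congr 1
    obtain ⟨v, o⟩ := p
    unfold blk ev uu flp
    cases o <;> cases hc : c v <;> simp [hc]

end Osc

section Doubling
variable {V : Type} [Fintype V] [DecidableEq V] {A : Type} [Ring A] [Algebra ℂ A]

theorem Valid.nodup {s : List (V × Bool)} (h : Valid (univ : Finset V) s) : s.Nodup := by
  rw [List.nodup_iff_count_le_one]
  rintro ⟨v, o⟩
  have h1 : s.count (v, o) = (s.filter (fun p => p.1 = v)).count (v, o) := by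
    rw [List.count_filter]
    simp
  rw [h1, h v, if_pos (Finset.mem_univ v)]
  cases o <;> simp [List.count_cons]

theorem Valid.complete {s : List (V × Bool)} (h : Valid (univ : Finset V) s) (p : V × Bool) :
    p ∈ s := by
  obtain ⟨v, o⟩ := p
  have h1 : (v, o) ∈ s.filter (fun p => p.1 = v) := by
    rw [h v, if_pos (Finset.mem_univ v)]
    cases o <;> simp
  exact (List.mem_filter.1 h1).1

/-- The equivalence `(V → J) ≃ (V → Bool) × (V × Bool → Bool)`. -/
def jEquiv (V : Type) : (V → Bool × Bool × Bool) ≃ (V → Bool) × (V × Bool → Bool) where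
  toFun χ := (fun v => (χ v).1, fun p => if p.2 = true then (χ p.1).2.2 else (χ p.1).2.1)
  invFun q := fun v => (q.1 v, q.2 (v, false), q.2 (v, true))
  left_inv χ := by
    funext v
    simp
  right_inv q := by
    ext p
    · rfl
    · obtain ⟨v, o⟩ := p
      cases o <;> simp

theorem sum_WW (x d : A) {s : List (V × Bool)} (h : Valid (univ : Finset V) s) :
    ∑ c : V → Bool, WW x d (univ : Finset (V × Bool)) (dw c s) =
      ∑ χ : V → Bool × Bool × Bool, (s.map (fun p => ∑ μ, (if p.2 = true then be (χ p.1) μ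
      else al (χ p.1) μ) • uu x d μ)).prod := by
  unfold WW
  rw [← (jEquiv V).symm.sum_comp, Fintype.sum_prod_type]
  refine Finset.sum_congr rfl fun c _ => Finset.sum_congr rfl fun ψ _ => ?_
  rw [ev_dw]
  have h1 : ∀ p : V × Bool, (∑ μ, (if p.2 = true then be ((jEquiv V).symm (c, ψ) p.1) μ
      else al ((jEquiv V).symm (c, ψ) p.1) μ) • uu x d μ) =
      (if p.2 = true then sg (ψ (p.1, false)) * sg (ψ (p.1, true)) else 1) •
      (if p.2 = true then
      uu x d (flp (c p.1, ψ (p.1, false), ψ (p.1, true)))
      else uu x d (ψ (p.1, false), ψ (p.1, true))) := by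
    rintro ⟨v, o⟩
    have h2 : (jEquiv V).symm (c, ψ) v = (c v, ψ (v, false), ψ (v, true)) := rfl
    simp only [h2]
    cases o
    · simp [al]
    · simp [be]
  simp only [h1]
  rw [prod_smul_list s h.nodup h.complete]
  congr 1
  rw [Fintype.prod_prod_type, Fintype.prod_prod_type]
  refine Finset.prod_congr rfl fun v _ => ?_
  rw [Fintype.prod_bool, Fintype.prod_bool]
  simp [mul_comm]

theorem frame_sum (x d : A) {s : List (V × Bool)} (h : Valid (univ : Finset V) s) :
    ∑ ψ : V → Fin 3, (s.map (fun p => ∑ μ, gam (ψ p.1) μ • uu x d μ)).prod =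
      (-1 / 4 : ℂ) ^ Fintype.card V •
        ∑ c : V → Bool, WW x d (univ : Finset (V × Bool)) (dw c s) := by
  rw [sum_WW x d h, gen s h.nodup h.complete (uu x d) al be]
  have h1 := gen s h.nodup h.complete (uu x d) gam gam
  simp only [ite_self] at h1
  rw [h1, Finset.smul_sum]
  refine Finset.sum_congr rfl fun r _ => ?_
  rw [smul_smul]
  congr 1
  rw [Finset.prod_congr rfl fun v _ => tensor_eq _ _, Finset.prod_mul_distrib, Finset.prod_const,
    Finset.card_univ]

end Doubling

end Pool.Agent.R806.Osc
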