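import Pool.Agent.R806.Osc.Rep

/-!
# The weight system takes values in the polynomials in the Casimir element
-/

set_option autoImplicit false
set_option linter.unusedSectionVars false

namespace Pool.Agent.R806.Osc

open Finset Polynomial

attribute [local instance 100] LieRing.ofAssociativeRing

section Rep
variable {A : Type} [Ring A] [Algebra ℂ A]

theorem sl2_trace (M : sl2) : M.1 1 1 = - M.1 0 0 := by
  have h := M.2
  have h2 : Matrix.trace M.1 = 0 := h
  rw [Matrix.trace_fin_two] at h2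
  exact eq_neg_of_add_eq_zero_right h2

/-- A representation of `sl(2)` given by the images of `E`, `F`, `H`. -/
noncomputable def repLie (e f h : A) (h1 : e * f - f * e = h) (h2 : h * e - e * h = (2 : ℂ) • e)
    (h3 : h * f - f * h = (-2 : ℂ) • f) : sl2 →ₗ⁅ℂ⁆ A where
  toFun M := (M.1 0 1) • e + (M.1 1 0) • f + (M.1 0 0) • h
  map_add' M N := by
    change (M.1 0 1 + N.1 0 1) • e + (M.1 1 0 + N.1 1 0) • f + (M.1 0 0 + N.1 0 0) • h = _
    module
  map_smul' c M := by
    change (c * M.1 0 1) • e + (c * M.1 1 0) • f + (c * M.1 0 0) • h = _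
    rw [RingHom.id_apply]
    module
  map_lie' := by
    intro M N
    have hM := sl2_trace M
    have hN := sl2_trace N
    have e1 : (⁅M, N⁆ : sl2).1 = M.1 * N.1 - N.1 * M.1 := rfl
    have e2 : ∀ i j, (⁅M, N⁆ : sl2).1 i j = (M.1 i 0 * N.1 0 j + M.1 i 1 * N.1 1 j) -
        (N.1 i 0 * M.1 0 j + N.1 i 1 * M.1 1 j) := by
      intro i j
      rw [e1, Matrix.sub_apply, Matrix.mul_apply, Matrix.mul_apply, Fin.sum_univ_two,
        Fin.sum_univ_two]
    simp only [e2, hM, hN]
    generalize M.1 0 0 = a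
    generalize M.1 0 1 = b
    generalize M.1 1 0 = c
    generalize N.1 0 0 = a'
    generalize N.1 0 1 = b'
    generalize N.1 1 0 = c'
    rw [Ring.lie_def]
    have f1 : f * e = e * f - h := by rw [← h1]; abel
    have f2 : h * e = e * h + (2 : ℂ) • e := by rw [← h2]; abel
    have f3 : h * f = f * h + (-2 : ℂ) • f := by rw [← h3]; abel
    simp only [mul_add, add_mul, smul_mul_smul_comm]
    rw [f1, f2, f3]
    module

noncomputable def rep (e f h : A) (h1 : e * f - f * e = h) (h2 : h * e - e * h = (2 : ℂ) • e)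
    (h3 : h * f - f * h = (-2 : ℂ) • f) : U →ₐ[ℂ] A :=
  UniversalEnvelopingAlgebra.lift ℂ (repLie e f h h1 h2 h3)

theorem rep_E (e f h : A) (h1 : e * f - f * e = h) (h2 : h * e - e * h = (2 : ℂ) • e)
    (h3 : h * f - f * h = (-2 : ℂ) • f) : rep e f h h1 h2 h3 E = e := by
  unfold rep E
  rw [UniversalEnvelopingAlgebra.lift_ι_apply]
  change (matE.1 0 1) • e + (matE.1 1 0) • f + (matE.1 0 0) • h = e
  simp [matE]

theorem rep_F (e f h : A) (h1 : e * f - f * e = h) (h2 : h * e - e * h = (2 : ℂ) • e)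
    (h3 : h * f - f * h = (-2 : ℂ) • f) : rep e f h h1 h2 h3 F = f := by
  unfold rep F
  rw [UniversalEnvelopingAlgebra.lift_ι_apply]
  change (matF.1 0 1) • e + (matF.1 1 0) • f + (matF.1 0 0) • h = f
  simp [matF]

theorem rep_H (e f h : A) (h1 : e * f - f * e = h) (h2 : h * e - e * h = (2 : ℂ) • e)
    (h3 : h * f - f * h = (-2 : ℂ) • f) : rep e f h h1 h2 h3 H = h := by
  unfold rep H
  rw [UniversalEnvelopingAlgebra.lift_ι_apply]
  change (matH.1 0 1) • e + (matH.1 1 0) • f + (matH.1 0 0) • h = h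
  simp [matH]

theorem rep_casimir (e f h : A) (h1 : e * f - f * e = h) (h2 : h * e - e * h = (2 : ℂ) • e)
    (h3 : h * f - f * h = (-2 : ℂ) • f) : rep e f h h1 h2 h3 casimir =
      (1 / 4 : ℂ) • (e * f + f * e + (1 / 2 : ℂ) • (h * h)) := by
  unfold casimir
  rw [map_smul, map_add, map_add, map_mul, map_mul, map_smul, map_mul, rep_E, rep_F, rep_H]

end Rep

section Relations

theorem lie_EF : E * F - F * E = H := by
  unfold E F H
  rw [← Ring.lie_def, ← LieHom.map_lie]
  congr 1
  apply Subtype.ext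
  have e1 : (⁅matE, matF⁆ : sl2).1 = matE.1 * matF.1 - matF.1 * matE.1 := rfl
  rw [e1]
  ext i j
  fin_cases i <;> fin_cases j <;> simp [matE, matF, matH, Matrix.mul_apply, Fin.sum_univ_two]

theorem lie_HE : H * E - E * H = (2 : ℂ) • E := by
  unfold E H
  rw [← Ring.lie_def, ← LieHom.map_lie, ← map_smul]
  congr 1
  apply Subtype.ext
  have e1 : (⁅matH, matE⁆ : sl2).1 = matH.1 * matE.1 - matE.1 * matH.1 := rfl
  have e2 : ((2 : ℂ) • matE : sl2).1 = (2 : ℂ) • matE.1 := rfl
  rw [e1, e2]
  ext i j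
  fin_cases i <;> fin_cases j <;> simp [matE, matH, Matrix.mul_apply, Fin.sum_univ_two]
  norm_num

theorem lie_HF : H * F - F * H = (-2 : ℂ) • F := by
  unfold F H
  rw [← Ring.lie_def, ← LieHom.map_lie, ← map_smul]
  congr 1
  apply Subtype.ext
  have e1 : (⁅matH, matF⁆ : sl2).1 = matH.1 * matF.1 - matF.1 * matH.1 := rfl
  have e2 : ((-2 : ℂ) • matF : sl2).1 = (-2 : ℂ) • matF.1 := rfl
  rw [e1, e2]
  ext i j
  fin_cases i <;> fin_cases j <;> simp [matF, matH, Matrix.mul_apply, Fin.sum_univ_two]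
  norm_num

/-- The totally antisymmetric symbol. -/
def eps (i j k : Fin 3) : ℤ :=
  match i, j, k with
  | 0, 1, 2 => 1
  | 1, 2, 0 => 1
  | 2, 0, 1 => 1
  | 0, 2, 1 => -1
  | 2, 1, 0 => -1
  | 1, 0, 2 => -1
  | _, _, _ => 0

theorem eps_eps (i j k m : Fin 3) : ∑ l, eps k i l * eps j l m =
    (if i = j then (if m = k then 1 else 0) else 0) -
      (if j = k then (if m = i then 1 else 0) else 0) := by
  revert i j k m; decide

theorem frame_comm (j i : Fin 3) : frame j * frame i - frame i * frame j =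
    ∑ l, ((-2 * Complex.I) * (eps j i l : ℂ)) • frame l := by
  have f1 : F * E = E * F - H := by rw [← lie_EF]; abel
  have f2 : H * E = E * H + (2 : ℂ) • E := by rw [← lie_HE]; abel
  have f3 : H * F = F * H + (-2 : ℂ) • F := by rw [← lie_HF]; abel
  have e0 : frame 0 = E + F := rfl
  have e1 : frame 1 = Complex.I • (E - F) := rfl
  have e2 : frame 2 = H := rfl
  have hI : Complex.I * Complex.I = -1 := Complex.I_mul_I
  rw [Fin.sum_univ_three, e0, e1, e2]
  fin_cases j <;> fin_cases i <;>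
    simp only [Fin.zero_eta, Fin.mk_one, Fin.reduceFinMk, e0, e1, e2, eps, mul_add, add_mul,
      mul_sub, sub_mul, smul_mul_assoc, mul_smul_comm, smul_add, smul_sub, smul_smul, f1, f2, f3,
      Int.cast_zero, Int.cast_one, Int.cast_neg, mul_zero, zero_smul, mul_one, mul_neg, neg_neg,
      neg_mul, hI]
  all_goals
    match_scalars <;> ring_nf <;> (try simp only [Complex.I_sq]) <;> (try ring_nf)

end Relations

section Six
variable {A : Type} [Ring A] [Algebra ℂ A] {g : Fin 3 → A}

theorem dbl_comm (hg : ∀ j i, g j * g i - g i * g j = ∑ l, ((-2 * Complex.I) * (eps j i l : ℂ)) • g l)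
    (i j k : Fin 3) :
    g j * (g k * g i - g i * g k) - (g k * g i - g i * g k) * g j =
      (-4 : ℂ) • (if i = j then g k else 0) + (4 : ℂ) • (if j = k then g i else 0) := by
  rw [hg k i, Finset.mul_sum, Finset.sum_mul, ← Finset.sum_sub_distrib]
  have h1 : ∀ l, g j * (((-2 * Complex.I) * (eps k i l : ℂ)) • g l) -
      (((-2 * Complex.I) * (eps k i l : ℂ)) • g l) * g j =
      ∑ m, ((-4 : ℂ) * ((eps k i l * eps j l m : ℤ) : ℂ)) • g m := by
    intro l
    rw [mul_smul_comm, smul_mul_assoc, ← smul_sub, hg j l, Finset.smul_sum]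
    refine Finset.sum_congr rfl fun m _ => ?_
    rw [smul_smul]
    congr 1
    push_cast
    linear_combination 4 * (eps k i l : ℂ) * (eps j l m : ℂ) * Complex.I_mul_I
  rw [Finset.sum_congr rfl fun l _ => h1 l, Finset.sum_comm]
  have h2 : ∀ m, ∑ l, ((-4 : ℂ) * ((eps k i l * eps j l m : ℤ) : ℂ)) • g m =
      ((-4 : ℂ) * ((((if i = j then (if m = k then 1 else 0) else 0) -
      (if j = k then (if m = i then 1 else 0) else 0) : ℤ)) : ℂ)) • g m := by
    intro m
    rw [← Finset.sum_smul, ← Finset.mul_sum, ← eps_eps i j k m]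
    push_cast
    rfl
  rw [Finset.sum_congr rfl fun m _ => h2 m]
  by_cases hij : i = j
  · by_cases hjk : j = k
    · subst hij; subst hjk
      simp
    · simp [hij, hjk]
  · by_cases hjk : j = k
    · subst hjk
      simp [hij]
    · simp [hij, hjk]

theorem one_comm (hg : ∀ j i, g j * g i - g i * g j = ∑ l, ((-2 * Complex.I) * (eps j i l : ℂ)) • g l)
    (j : Fin 3) : ∑ i, g i * g j * g i = (∑ i, g i * g i - (4 : ℂ) • 1) * g j := by
  have h1 : ∀ i, g i * g j * g i = g i * g i * g j + g i * (g j * g i - g i * g j) := by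
    intro i; noncomm_ring
  rw [Finset.sum_congr rfl fun i _ => h1 i, Finset.sum_add_distrib, ← Finset.sum_mul, sub_mul,
    smul_mul_assoc, one_mul, sub_eq_add_neg]
  congr 1
  have h2 : ∀ i, g i * (g j * g i - g i * g j) =
      ∑ l, ((-2 * Complex.I) * (eps j i l : ℂ)) • (g i * g l) := by
    intro i
    rw [hg j i, Finset.mul_sum]
    refine Finset.sum_congr rfl fun l _ => ?_
    rw [mul_smul_comm]
  rw [Finset.sum_congr rfl fun i _ => h2 i]
  have h01 := hg 0 1
  have h02 := hg 0 2
  have h12 := hg 1 2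
  simp only [Fin.sum_univ_three, eps, Int.cast_zero, Int.cast_one, mul_zero, zero_smul, zero_add,
    add_zero, mul_one, Int.cast_neg, mul_neg] at h01 h02 h12
  have hI : Complex.I * Complex.I = -1 := Complex.I_mul_I
  have k01 : g 0 * g 1 = g 1 * g 0 + (-2 * Complex.I) • g 2 := by rw [← h01]; abel
  have k02 : g 0 * g 2 = g 2 * g 0 + (-(-2 * Complex.I)) • g 1 := by rw [← h02]; abel
  have k12 : g 1 * g 2 = g 2 * g 1 + (-2 * Complex.I) • g 0 := by rw [← h12]; abel
  fin_cases j <;>
    simp only [Fin.zero_eta, Fin.mk_one, Fin.reduceFinMk, Fin.sum_univ_three, eps, Int.cast_zero,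
      Int.cast_one, mul_zero, zero_smul, zero_add, add_zero, mul_one, Int.cast_neg, mul_neg,
      k01, k02, k12, smul_add, smul_smul, neg_mul, neg_neg]
  all_goals
    match_scalars <;> ring_nf <;> (try simp only [Complex.I_sq]) <;> (try ring_nf)

end Six

end Pool.Agent.R806.Osc
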