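import Pool.Agent.R806.Osc.Model

/-!
# Words of simple chords in the Weyl algebra
-/

set_option autoImplicit false
set_option linter.unusedSectionVars false

namespace Pool.Agent.R806.Osc

open Finset

section Free
variable {L : Type} [Fintype L] [DecidableEq L]

theorem sum_free' (b : L) {C : Type} [Fintype C] [DecidableEq C] {M : Type} [AddCommMonoid M]
    (F : (L → C) → M)
    (hF : ∀ f c, F (Function.update f b c) = F f) (φ : (L → C) → C)
    (hφ : ∀ f c, φ (Function.update f b c) = φ f) :
    Fintype.card C • ∑ f : L → C, (if f b = φ f then F f else 0) = ∑ f, F f := by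
  have h0 : ∀ H : (L → C) → M, ∑ f, H f =
      ∑ g : {j // j ≠ b} → C, ∑ c : C, H ((Equiv.funSplitAt b C).symm (c, g)) := by
    intro H
    rw [← (Equiv.funSplitAt b C).symm.sum_comp, Fintype.sum_prod_type, Finset.sum_comm]
  rw [h0, h0 F, Finset.smul_sum]
  refine Finset.sum_congr rfl fun g _ => ?_
  by_cases hC : IsEmpty C
  · simp
  · rw [not_isEmpty_iff] at hC
    obtain ⟨c0⟩ := hC
    have hu : ∀ c, (Equiv.funSplitAt b C).symm (c, g) =
        Function.update ((Equiv.funSplitAt b C).symm (c0, g)) b c := by
      intro c
      ext x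
      by_cases hx : x = b
      · subst hx; simp [Equiv.funSplitAt]
      · simp [Equiv.funSplitAt, hx]
    have h2 : ∀ c, F ((Equiv.funSplitAt b C).symm (c, g)) =
        F ((Equiv.funSplitAt b C).symm (c0, g)) := fun c => by rw [hu c, hF]
    have h3 : ∀ c, φ ((Equiv.funSplitAt b C).symm (c, g)) =
        φ ((Equiv.funSplitAt b C).symm (c0, g)) := fun c => by rw [hu c, hφ]
    have h4 : ∀ c, (Equiv.funSplitAt b C).symm (c, g) b = c := by
      intro c
      simp [Equiv.funSplitAt]
    simp only [h2, h3, h4]
    simp

end Free

section Pairs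
variable {L : Type} [DecidableEq L]

/-- The number of pairs of positions `i < j` with `ℓ i = u`, `ℓ j = v`. -/
def pr : List L → L → L → ℕ
  | [], _, _ => 0
  | w :: t, u, v => (if w = u then t.count v else 0) + pr t u v

theorem pr_append (s t : List L) (u v : L) :
    pr (s ++ t) u v = pr s u v + pr t u v + s.count u * t.count v := by
  induction s with
  | nil => simp [pr]
  | cons w s ih =>
    simp only [List.cons_append, pr, ih, List.count_append, List.count_cons]
    by_cases h : w = u
    · subst h; simp; ring
    · simp [h]

theorem pr_symm (s : List L) {u v : L} (huv : u ≠ v) :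
    pr s u v + pr s v u = s.count u * s.count v := by
  induction s with
  | nil => simp [pr]
  | cons w s ih =>
    simp only [pr, List.count_cons]
    by_cases h : w = u
    · subst h
      simp [huv]
      linarith
    · by_cases h' : w = v
      · subst h'
        simp [h]
        linarith
      · simp [h, h']
        linarith

theorem pr_left (s : List L) (u v : L) (h : s.count u = 0) : pr s u v = 0 := by
  induction s with
  | nil => rfl
  | cons w s ih =>
    rw [List.count_cons] at h
    have h1 : s.count u = 0 := by omega
    have h2 : w ≠ u := by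
      intro h2
      subst h2
      simp at h
    simp [pr, h2, ih h1]

theorem pr_right (s : List L) (u v : L) (h : s.count v = 0) : pr s u v = 0 := by
  induction s with
  | nil => rfl
  | cons w s ih =>
    rw [List.count_cons] at h
    have h1 : s.count v = 0 := by omega
    simp [pr, h1, ih h1]

/-- Replace the label `b` by `a`. -/
def ren (a b : L) (x : L) : L := if x = b then a else x

theorem count_ren_of_ne {a b : L} (s : List L) {v : L} (h1 : v ≠ a) (h2 : v ≠ b) :
    (s.map (ren a b)).count v = s.count v := by
  induction s with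
  | nil => rfl
  | cons w s ih =>
    rw [List.map_cons, List.count_cons, List.count_cons, ih]
    congr 1
    unfold ren
    by_cases h : w = b
    · subst h
      have h3 : ¬ w = v := fun h => h2 h.symm
      have h4 : ¬ a = v := fun h => h1 h.symm
      simp [h3, h4]
    · simp [h]

theorem count_ren_a {a b : L} (hab : a ≠ b) (s : List L) :
    (s.map (ren a b)).count a = s.count a + s.count b := by
  induction s with
  | nil => rfl
  | cons w s ih =>
    rw [List.map_cons, List.count_cons, List.count_cons, List.count_cons, ih]
    unfold ren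
    by_cases h : w = b
    · subst h
      have h3 : ¬ w = a := fun h => hab h.symm
      simp [h3]; ring
    · by_cases h' : w = a
      · subst h'
        simp [h]; ring
      · simp [h, h']

theorem count_ren_b {a b : L} (hab : a ≠ b) (s : List L) :
    (s.map (ren a b)).count b = 0 := by
  rw [List.count_eq_zero]
  intro h
  obtain ⟨w, _, hw⟩ := List.mem_map.1 h
  unfold ren at hw
  split_ifs at hw with h1
  · exact hab hw
  · exact h1 hw

theorem pr_ren_of_ne {a b : L} (s : List L) {u v : L} (h1 : v ≠ a) (h2 : v ≠ b)
    (h3 : u ≠ a) (h4 : u ≠ b) : pr (s.map (ren a b)) u v = pr s u v := by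
  induction s with
  | nil => rfl
  | cons w s ih =>
    rw [List.map_cons, pr, pr, ih, count_ren_of_ne s h1 h2]
    congr 1
    unfold ren
    by_cases h : w = b
    · subst h
      have h5 : ¬ w = u := fun h => h4 h.symm
      have h6 : ¬ a = u := fun h => h3 h.symm
      simp [h5, h6]
    · simp [h]

theorem pr_ren_left {a b : L} (hab : a ≠ b) (s : List L) {v : L} (h1 : v ≠ a) (h2 : v ≠ b) :
    pr (s.map (ren a b)) a v = pr s a v + pr s b v := by
  induction s with
  | nil => rfl
  | cons w s ih =>
    rw [List.map_cons, pr, pr, pr, ih, count_ren_of_ne s h1 h2]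
    unfold ren
    by_cases h : w = b
    · subst h
      have h3 : ¬ w = a := fun h => hab h.symm
      simp [h3]; ring
    · by_cases h' : w = a
      · subst h'
        simp [h]; ring
      · simp [h, h']

theorem pr_ren_right {a b : L} (hab : a ≠ b) (s : List L) {v : L} (h1 : v ≠ a) (h2 : v ≠ b) :
    pr (s.map (ren a b)) v a = pr s v a + pr s v b := by
  induction s with
  | nil => rfl
  | cons w s ih =>
    rw [List.map_cons, pr, pr, pr, ih, count_ren_a hab]
    unfold ren
    by_cases h : w = b
    · subst h
      have h3 : ¬ w = v := fun h => h2 h.symm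
      have h4 : ¬ a = v := fun h => h1 h.symm
      simp [h3, h4]
    · by_cases h' : w = v
      · subst h'
        simp [h]; ring
      · simp [h, h']

/-- The interlacement relation of a word. -/
def rel (s : List L) (u v : L) : Prop := u ≠ v ∧ Odd (pr s u v)

theorem rel_symm {s : List L} {u v : L} (hu : Even (s.count u)) :
    rel s u v ↔ rel s v u := by
  unfold rel
  by_cases huv : u = v
  · subst huv; simp
  · have h := pr_symm s huv
    have h2 : Even (pr s u v + pr s v u) := by
      rw [h]; exact hu.mul_right _
    have h3 : Odd (pr s u v) ↔ Odd (pr s v u) := by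
      rw [Nat.even_add, ← Nat.not_odd_iff_even, ← Nat.not_odd_iff_even] at h2
      tauto
    rw [h3, ne_comm]

end Pairs

section Eval
variable {L : Type} [Fintype L] [DecidableEq L] {A : Type} [Ring A] [Algebra ℂ A]

def sg (b : Bool) : ℂ := if b then -1 else 1

def zz (x d : A) (b : Bool) : A := if b then d else x

/-- The product of a word of letters `(v, o)`; the letter `(v, o)` is the element
number `ψ v xor o` of `(x, d)`. -/
def ev (x d : A) (ψ : L → Bool) (s : List (L × Bool)) : A :=
  (s.map (fun p => zz x d (xor (ψ p.1) p.2))).prod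

noncomputable def WW (x d : A) (S : Finset L) (s : List (L × Bool)) : A :=
  ∑ ψ : L → Bool, (∏ v ∈ S, sg (ψ v)) • ev x d ψ s

def Valid (S : Finset L) (s : List (L × Bool)) : Prop :=
  ∀ v, s.filter (fun p => p.1 = v) = if v ∈ S then [(v, false), (v, true)] else []

/-- The labels of a word. -/
def lab (s : List (L × Bool)) : List L := s.map Prod.fst

theorem count_lab (s : List (L × Bool)) (v : L) :
    (lab s).count v = (s.filter (fun p => p.1 = v)).length := by
  unfold lab
  induction s with
  | nil => rfl
  | cons p s ih =>
    rw [List.map_cons, List.count_cons, ih, List.filter_cons]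
    by_cases h : p.1 = v
    · simp [h]
    · simp [h]

theorem Valid.count {S : Finset L} {s : List (L × Bool)} (h : Valid S s) (v : L) :
    (lab s).count v = if v ∈ S then 2 else 0 := by
  rw [count_lab, h v]
  by_cases hv : v ∈ S
  · simp [hv]
  · simp [hv]

theorem Valid.even {S : Finset L} {s : List (L × Bool)} (h : Valid S s) (v : L) :
    Even ((lab s).count v) := by
  rw [h.count v]
  split_ifs
  · exact ⟨1, rfl⟩
  · exact ⟨0, rfl⟩

theorem ev_append (x d : A) (ψ : L → Bool) (s t : List (L × Bool)) :
    ev x d ψ (s ++ t) = ev x d ψ s * ev x d ψ t := by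
  unfold ev
  rw [List.map_append, List.prod_append]

theorem ev_cons (x d : A) (ψ : L → Bool) (p : L × Bool) (t : List (L × Bool)) :
    ev x d ψ (p :: t) = zz x d (xor (ψ p.1) p.2) * ev x d ψ t := by
  unfold ev
  rw [List.map_cons, List.prod_cons]

theorem zz_comm {x d : A} (hd : d * x - x * d = 1) (β α : Bool) :
    zz x d β * zz x d α - zz x d α * zz x d β =
      (if β = α then (0 : ℂ) else -sg β) • (1 : A) := by
  cases β <;> cases α <;> simp [zz, sg]
  · rw [← hd]; abel
  · exact hd

theorem ev_congr (x d : A) {ψ ψ' : L → Bool} {s : List (L × Bool)}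
    (h : ∀ p ∈ s, ψ p.1 = ψ' p.1) : ev x d ψ s = ev x d ψ' s := by
  unfold ev
  congr 1
  apply List.map_congr_left
  intro p hp
  rw [h p hp]

theorem Valid.not_mem {S : Finset L} {s : List (L × Bool)} (h : Valid S s) {b : L}
    (hb : b ∉ S) {p : L × Bool} (hp : p ∈ s) : p.1 ≠ b := by
  intro hpb
  have h1 := h b
  rw [if_neg hb] at h1
  have h2 : p ∈ s.filter (fun p => p.1 = b) := by
    rw [List.mem_filter]
    exact ⟨hp, by simpa using hpb⟩
  rw [h1] at h2
  exact absurd h2 (by simp)

theorem valid_cases {S : Finset L} {s : List (L × Bool)} (h : Valid S s) (hS : S.Nonempty) :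
    ∃ a ∈ S, ∃ s1 s2, s = (a, false) :: (s1 ++ (a, true) :: s2) ∧
      s1.filter (fun p => p.1 = a) = [] ∧ s2.filter (fun p => p.1 = a) = [] := by
  cases s with
  | nil =>
    obtain ⟨v, hv⟩ := hS
    have := h v
    rw [if_pos hv] at this
    simp at this
  | cons p t =>
    obtain ⟨a, o⟩ := p
    have h1 := h a
    rw [List.filter_cons] at h1
    simp only [decide_true, if_true] at h1
    by_cases ha : a ∈ S
    · rw [if_pos ha] at h1
      have h2 : o = false := by
        have := List.head_eq_of_cons_eq h1
        simpa using this
      have h3 : t.filter (fun p => p.1 = a) = [(a, true)] := List.tail_eq_of_cons_eq h1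
      have h4 : (a, true) ∈ t := by
        have : (a, true) ∈ t.filter (fun p => p.1 = a) := by rw [h3]; simp
        exact (List.mem_filter.1 this).1
      obtain ⟨s1, s2, h5⟩ := List.append_of_mem h4
      refine ⟨a, ha, s1, s2, by rw [h2, h5], ?_, ?_⟩
      · have h6 := congrArg List.length h3
        rw [h5, List.filter_append, List.length_append, List.filter_cons] at h6
        simp only [decide_true, if_true, List.length_cons, List.length_nil] at h6
        exact List.length_eq_zero_iff.1 (by omega)
      · have h6 := congrArg List.length h3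
        rw [h5, List.filter_append, List.length_append, List.filter_cons] at h6
        simp only [decide_true, if_true, List.length_cons, List.length_nil] at h6
        exact List.length_eq_zero_iff.1 (by omega)
    · rw [if_neg ha] at h1
      simp at h1

theorem valid_delete {S : Finset L} {a : L} {s : List (L × Bool)} (ha : a ∈ S)
    (h : Valid S ((a, false) :: (a, true) :: s)) : Valid (S.erase a) s := by
  intro v
  have h1 := h v
  by_cases hv : v = a
  · subst hv
    rw [if_neg (by simp)]
    rw [if_pos ha] at h1
    simpa using h1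
  · have hv' : ¬ a = v := fun h => hv h.symm
    have h2 : v ∈ S.erase a ↔ v ∈ S := by simp [hv]
    simp only [h2]
    simpa [List.filter_cons, hv'] using h1

theorem WW_delete {x d : A} (hd : d * x - x * d = 1) {S : Finset L} {a : L}
    {s : List (L × Bool)} (ha : a ∈ S) (h : Valid S ((a, false) :: (a, true) :: s)) :
    WW x d S ((a, false) :: (a, true) :: s) = (-1 / 2 : ℂ) • WW x d (S.erase a) s := by
  have hv := valid_delete ha h
  set F : (L → Bool) → A := fun ψ => (∏ v ∈ S.erase a, sg (ψ v)) • ev x d ψ s with hF
  have hFi : ∀ ψ c, F (Function.update ψ a c) = F ψ := by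
    intro ψ c
    rw [hF]
    simp only
    congr 1
    · refine Finset.prod_congr rfl fun v hv => ?_
      rw [Function.update_of_ne (Finset.ne_of_mem_erase hv)]
    · apply ev_congr
      intro p hp
      rw [Function.update_of_ne (hv.not_mem (by simp) hp)]
  have h2 : ∀ c : Bool, ∑ ψ : L → Bool, (if ψ a = c then F ψ else 0) =
      (1 / 2 : ℂ) • ∑ ψ, F ψ := by
    intro c
    have h3 := sum_free' a F hFi (fun _ => c) (fun _ _ => rfl)
    rw [Fintype.card_bool] at h3
    rw [← h3, ← Nat.cast_smul_eq_nsmul ℂ, smul_smul]
    norm_num
  have h4 : WW x d S ((a, false) :: (a, true) :: s) =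
      (x * d) * (∑ ψ : L → Bool, (if ψ a = false then F ψ else 0)) -
      (d * x) * (∑ ψ : L → Bool, (if ψ a = true then F ψ else 0)) := by
    rw [Finset.mul_sum, Finset.mul_sum, ← Finset.sum_sub_distrib]
    refine Finset.sum_congr rfl fun ψ _ => ?_
    rw [← Finset.mul_prod_erase S _ ha, ev_cons, ev_cons]
    cases h5 : ψ a
    · simp only [sg, zz, hF]
      simp [mul_assoc]
    · simp only [sg, zz, hF]
      simp [mul_assoc]
  rw [h4, h2, h2]
  change _ = (-1 / 2 : ℂ) • ∑ ψ, F ψ
  rw [mul_smul_comm, mul_smul_comm, ← smul_sub, ← sub_mul]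
  have h6 : x * d - d * x = -1 := by rw [← hd]; abel
  rw [h6, neg_one_mul, smul_neg, ← neg_smul]
  norm_num

/-- Replace the label `b` by `a`, with orientation `true`. -/
def renp (a b : L) (p : L × Bool) : L × Bool := if p.1 = b then (a, true) else p

theorem lab_renp (a b : L) (s : List (L × Bool)) :
    lab (s.map (renp a b)) = (lab s).map (ren a b) := by
  unfold lab
  rw [List.map_map, List.map_map]
  apply List.map_congr_left
  intro p _
  simp only [Function.comp, renp, ren]
  split_ifs <;> rfl

theorem valid_merge {S : Finset L} {a b : L} (hab : b ≠ a) {o : Bool} {s1 s2 : List (L × Bool)}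
    (ha : a ∈ S)
    (h : Valid S ((a, false) :: (s1 ++ (b, o) :: (a, true) :: s2))) :
    b ∈ S ∧ ((o = true ∧ s1.filter (fun p => p.1 = b) = [(b, false)] ∧
        s2.filter (fun p => p.1 = b) = []) ∨
      (o = false ∧ s1.filter (fun p => p.1 = b) = [] ∧
        s2.filter (fun p => p.1 = b) = [(b, true)])) ∧
      s1.filter (fun p => p.1 = a) = [] ∧ s2.filter (fun p => p.1 = a) = [] := by
  have hb := h b
  have hab' : ¬ a = b := fun h => hab h.symm
  simp only [List.filter_cons, List.filter_append, hab', decide_false, decide_true,
    if_true, Bool.false_eq_true, if_false] at hb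
  have hbS : b ∈ S := by
    by_contra hbS
    rw [if_neg hbS] at hb
    simp at hb
  rw [if_pos hbS] at hb
  refine ⟨hbS, ?_, ?_⟩
  · cases h1 : s1.filter (fun p => p.1 = b) with
    | nil =>
      rw [h1] at hb
      right
      simp only [List.nil_append, List.cons.injEq, Prod.mk.injEq, true_and] at hb
      exact ⟨hb.1, rfl, hb.2⟩
    | cons p t =>
      rw [h1] at hb
      left
      simp only [List.cons_append, List.cons.injEq] at hb
      cases t with
      | nil =>
        simp only [List.nil_append, List.cons.injEq, Prod.mk.injEq, true_and] at hb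
        refine ⟨hb.2.1, ?_, hb.2.2⟩
        rw [hb.1]
      | cons q t =>
        simp at hb
  · have h1 := h a
    simp only [List.filter_cons, List.filter_append, hab, decide_false, decide_true,
      if_true, Bool.false_eq_true, if_false, if_pos ha] at h1
    have h2 := congrArg List.length h1
    simp only [List.length_cons, List.length_append, List.length_nil] at h2
    exact ⟨List.length_eq_zero_iff.1 (by omega), List.length_eq_zero_iff.1 (by omega)⟩

theorem mem_of_filter {b : L} {t : List (L × Bool)} {q : L × Bool}
    (h : t.filter (fun p => p.1 = b) = [q]) {p : L × Bool} (hp : p ∈ t) (hpb : p.1 = b) :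
    p = q := by
  have h2 : p ∈ t.filter (fun p => p.1 = b) := by
    rw [List.mem_filter]
    exact ⟨hp, by simpa using hpb⟩
  rw [h] at h2
  simpa using h2

theorem not_mem_of_filter {b : L} {t : List (L × Bool)}
    (h : t.filter (fun p => p.1 = b) = []) {p : L × Bool} (hp : p ∈ t) : p.1 ≠ b := by
  intro hpb
  have h2 : p ∈ t.filter (fun p => p.1 = b) := by
    rw [List.mem_filter]
    exact ⟨hp, by simpa using hpb⟩
  rw [h] at h2
  simp at h2

theorem filter_renp_of_ne {a b v : L} (hva : v ≠ a) (hvb : v ≠ b) (t : List (L × Bool)) :
    (t.map (renp a b)).filter (fun p => p.1 = v) = t.filter (fun p => p.1 = v) := by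
  induction t with
  | nil => rfl
  | cons p t ih =>
    rw [List.map_cons, List.filter_cons, List.filter_cons, ih]
    by_cases h : p.1 = b
    · have h1 : ¬ p.1 = v := fun h' => hvb (h'.symm.trans h)
      have h2 : ¬ a = v := fun h' => hva h'.symm
      have h3 : ¬ b = v := fun h' => hvb h'.symm
      simp [renp, h, h2, h3]
    · simp [renp, h]

theorem filter_renp_b {a b : L} (hab : b ≠ a) (t : List (L × Bool)) :
    (t.map (renp a b)).filter (fun p => p.1 = b) = [] := by
  induction t with
  | nil => rfl
  | cons p t ih =>
    rw [List.map_cons, List.filter_cons, ih]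
    by_cases h : p.1 = b
    · simp [renp, h, hab.symm]
    · simp [renp, h]

theorem filter_renp_a {a b : L} {t : List (L × Bool)}
    (ht : t.filter (fun p => p.1 = a) = []) :
    (t.map (renp a b)).filter (fun p => p.1 = a) =
      (t.filter (fun p => p.1 = b)).map (fun _ => (a, true)) := by
  induction t with
  | nil => rfl
  | cons p t ih =>
    rw [List.filter_cons] at ht
    have h0 : ¬ p.1 = a := by
      intro h
      simp [h] at ht
    simp only [h0, decide_false, Bool.false_eq_true, if_false] at ht
    rw [List.map_cons, List.filter_cons, List.filter_cons, ih ht]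
    by_cases h : p.1 = b
    · simp [renp, h]
    · simp [renp, h, h0]

/-- The merged word. -/
def mrg (a b : L) (s1 s2 : List (L × Bool)) : List (L × Bool) :=
  (a, false) :: (s1 ++ s2).map (renp a b)

theorem valid_mrg {S : Finset L} {a b : L} (hab : b ≠ a) {o : Bool} {s1 s2 : List (L × Bool)}
    (ha : a ∈ S)
    (h : Valid S ((a, false) :: (s1 ++ (b, o) :: (a, true) :: s2))) :
    Valid (S.erase b) (mrg a b s1 s2) := by
  obtain ⟨hb, hc, h1, h2⟩ := valid_merge hab ha h
  intro v
  unfold mrg
  rw [List.filter_cons]
  by_cases hva : v = a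
  · subst hva
    have h3 : (s1 ++ s2).filter (fun p => p.1 = v) = [] := by
      rw [List.filter_append, h1, h2]; rfl
    rw [filter_renp_a h3, List.filter_append]
    have h4 : v ∈ S.erase b := Finset.mem_erase.2 ⟨hab.symm, ha⟩
    rw [if_pos h4]
    rcases hc with ⟨_, h5, h6⟩ | ⟨_, h5, h6⟩
    · rw [h5, h6]; simp
    · rw [h5, h6]; simp
  · by_cases hvb : v = b
    · subst hvb
      have hva' : ¬ a = v := fun h => hva h.symm
      rw [filter_renp_b hab, if_neg (show ¬ v ∈ S.erase v by simp)]
      simp [hva']
    · rw [filter_renp_of_ne hva hvb]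
      have h3 := h v
      have hav : ¬ a = v := fun h => hva h.symm
      have hbv : ¬ b = v := fun h => hvb h.symm
      have h4 : v ∈ S.erase b ↔ v ∈ S := by simp [hvb]
      simp only [h4]
      rw [← h3]
      simp [List.filter_append, hav, hbv]

theorem WW_exchange {x d : A} (hd : d * x - x * d = 1) {S : Finset L} {a b : L} (hab : b ≠ a)
    {o : Bool} {s1 s2 : List (L × Bool)} (ha : a ∈ S)
    (h : Valid S ((a, false) :: (s1 ++ (b, o) :: (a, true) :: s2))) :
    WW x d S ((a, false) :: (s1 ++ (b, o) :: (a, true) :: s2)) -
      WW x d S ((a, false) :: (s1 ++ (a, true) :: (b, o) :: s2)) =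
    (-sg o / 2) • WW x d (S.erase b) (mrg a b s1 s2) := by
  have hv := valid_mrg hab ha h
  obtain ⟨hb, hc, h1, h2⟩ := valid_merge hab ha h
  set F : (L → Bool) → A := fun ψ => (∏ v ∈ S.erase b, sg (ψ v)) • ev x d ψ (mrg a b s1 s2)
    with hF
  have hFi : ∀ ψ c, F (Function.update ψ b c) = F ψ := by
    intro ψ c
    rw [hF]
    simp only
    congr 1
    · refine Finset.prod_congr rfl fun v hv => ?_
      rw [Function.update_of_ne (Finset.ne_of_mem_erase hv)]
    · apply ev_congr
      intro p hp
      rw [Function.update_of_ne (hv.not_mem (by simp) hp)]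
  have h3 := sum_free' b F hFi (fun ψ => xor (ψ a) o) (fun ψ c => by
    rw [Function.update_of_ne hab.symm])
  rw [Fintype.card_bool] at h3
  have h4 : WW x d (S.erase b) (mrg a b s1 s2) = ∑ ψ, F ψ := rfl
  rw [h4, ← h3]
  unfold WW
  rw [← Finset.sum_sub_distrib, ← Nat.cast_smul_eq_nsmul ℂ, smul_smul, Finset.smul_sum]
  refine Finset.sum_congr rfl fun ψ _ => ?_
  rw [← smul_sub]
  have h5 : ev x d ψ ((a, false) :: (s1 ++ (b, o) :: (a, true) :: s2)) -
      ev x d ψ ((a, false) :: (s1 ++ (a, true) :: (b, o) :: s2)) =
      (if xor (ψ b) o = xor (ψ a) true then (0 : ℂ) else -sg (xor (ψ b) o)) •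
        ev x d ψ ((a, false) :: (s1 ++ s2)) := by
    have h6 := zz_comm hd (xor (ψ b) o) (xor (ψ a) true)
    rw [ev_cons, ev_cons, ev_cons, ev_append, ev_append, ev_append, ev_cons, ev_cons, ev_cons,
      ev_cons]
    simp only
    rw [← mul_sub, ← mul_sub, ← mul_assoc (zz x d (xor (ψ b) o)),
      ← mul_assoc (zz x d (xor (ψ a) true)), ← sub_mul, h6, smul_mul_assoc, one_mul,
      mul_smul_comm, mul_smul_comm]
  rw [h5]
  by_cases h7 : ψ b = xor (ψ a) o
  · have h8 : ¬ (xor (ψ b) o = xor (ψ a) true) := by
      rw [h7]; cases ψ a <;> cases o <;> simp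
    have h9 : xor (ψ b) o = ψ a := by
      rw [h7]; cases ψ a <;> cases o <;> simp
    rw [if_neg h8, if_pos h7, h9, hF]
    simp only
    rw [← Finset.mul_prod_erase S _ hb]
    have h10 : ev x d ψ ((a, false) :: (s1 ++ s2)) = ev x d ψ (mrg a b s1 s2) := by
      unfold mrg
      rw [ev_cons, ev_cons]
      congr 1
      unfold ev
      rw [List.map_map]
      congr 1
      apply List.map_congr_left
      intro p hp
      simp only [Function.comp, renp]
      by_cases hpb : p.1 = b
      · rw [if_pos hpb, hpb, h7]
        have hp2 : p.2 = !o := by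
          rcases hc with ⟨ho, h5, h6⟩ | ⟨ho, h5, h6⟩
          · rcases List.mem_append.1 hp with hp | hp
            · rw [mem_of_filter h5 hp hpb, ho]; rfl
            · exact absurd hpb (not_mem_of_filter h6 hp)
          · rcases List.mem_append.1 hp with hp | hp
            · exact absurd hpb (not_mem_of_filter h5 hp)
            · rw [mem_of_filter h6 hp hpb, ho]; rfl
        rw [hp2]
        cases ψ a <;> cases o <;> rfl
      · rw [if_neg hpb]
    rw [h10, smul_smul, smul_smul, h7]
    congr 1
    have h11 : sg (xor (ψ a) o) * sg (ψ a) = sg o := by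
      cases ψ a <;> cases o <;> simp [sg]
    push_cast
    linear_combination (-∏ v ∈ S.erase b, sg (ψ v)) * h11
  · have h8 : xor (ψ b) o = xor (ψ a) true := by
      revert h7; cases ψ b <;> cases ψ a <;> cases o <;> simp
    rw [if_pos h8, if_neg h7]
    simp

theorem lab_mrg (a b : L) (hab : b ≠ a) (s1 s2 : List (L × Bool)) :
    lab (mrg a b s1 s2) = (a :: (lab s1 ++ lab s2)).map (ren a b) := by
  unfold mrg
  rw [List.map_cons, ← show lab (s1 ++ s2) = lab s1 ++ lab s2 from List.map_append,
    ← lab_renp]
  have : ren a b a = a := by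
    unfold ren; rw [if_neg (fun h => hab h.symm)]
  rw [this]
  rfl

/-- The change of the numbers of pairs when two adjacent letters are inserted. -/
theorem pr_insert (s t : List L) (p q u v : L) :
    pr (s ++ p :: q :: t) u v = pr (s ++ t) u v + pr [p, q] u v + [p, q].count u * t.count v +
      s.count u * [p, q].count v := by
  rw [show s ++ p :: q :: t = s ++ ([p, q] ++ t) from by simp, pr_append, pr_append, pr_append,
    List.count_append]
  ring

theorem hh_exchange {S : Finset L} {a b : L} (hab : b ≠ a)
    {o : Bool} {s1 s2 : List (L × Bool)} (ha : a ∈ S)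
    (h : Valid S ((a, false) :: (s1 ++ (b, o) :: (a, true) :: s2)))
    (h' : Valid S ((a, false) :: (s1 ++ (a, true) :: (b, o) :: s2))) :
    hh (rel (lab ((a, false) :: (s1 ++ (b, o) :: (a, true) :: s2)))) -
      hh (rel (lab ((a, false) :: (s1 ++ (a, true) :: (b, o) :: s2)))) =
    sg o * hh (rel (lab (mrg a b s1 s2))) := by
  have hv := valid_mrg hab ha h
  obtain ⟨hb, hc, h1, h2⟩ := valid_merge hab ha h
  have e1 : lab ((a, false) :: (s1 ++ (b, o) :: (a, true) :: s2)) =
      (a :: lab s1) ++ b :: a :: lab s2 := by simp [lab]
  have e2 : lab ((a, false) :: (s1 ++ (a, true) :: (b, o) :: s2)) =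
      (a :: lab s1) ++ a :: b :: lab s2 := by simp [lab]
  have e3 : lab (mrg a b s1 s2) = ((a :: lab s1) ++ lab s2).map (ren a b) := by
    rw [lab_mrg a b hab]; rfl
  have ev0 := h.even
  have ev1 := h'.even
  have ev2 := hv.even
  rw [e1] at ev0
  rw [e2] at ev1
  rw [e3] at ev2
  have c1 : (lab s1).count a = 0 := by rw [count_lab, h1]; rfl
  have c2 : (lab s2).count a = 0 := by rw [count_lab, h2]; rfl
  have c3 : (lab s2).count b = if o then 0 else 1 := by
    rw [count_lab]
    rcases hc with ⟨h3, h4, h5⟩ | ⟨h3, h4, h5⟩
    · rw [h5, h3]; rfl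
    · rw [h5, h3]; rfl
  have c4 : (lab s1).count b + (lab s2).count b = 1 := by
    rw [count_lab, count_lab]
    rcases hc with ⟨h3, h4, h5⟩ | ⟨h3, h4, h5⟩
    · rw [h4, h5]; rfl
    · rw [h4, h5]; rfl
  rw [e1, e2, e3]
  have hab' : a ≠ b := hab.symm
  have key : rel ((a :: lab s1) ++ b :: a :: lab s2) a b ↔ o = false := by
    unfold rel
    have h3 : pr ((a :: lab s1) ++ b :: a :: lab s2) a b = 2 + (lab s2).count b := by
      rw [List.cons_append, pr, if_pos rfl, pr_append, List.count_append, pr_left (lab s1) a b c1,
        c1, pr, if_neg hab, pr, if_pos rfl, pr_left (lab s2) a b c2, List.count_cons_self,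
        List.count_cons_of_ne hab']
      omega
    rw [h3, c3]
    cases o
    · simp [hab', Nat.odd_iff]
    · simp [Nat.odd_iff]
  rw [hh_toggle hab' (rel ((a :: lab s1) ++ b :: a :: lab s2))
    (rel ((a :: lab s1) ++ a :: b :: lab s2))
    (rel (((a :: lab s1) ++ lab s2).map (ren a b)))]
  · congr 1
    by_cases ho : o = false
    · rw [if_pos (key.2 ho), ho]; simp [sg]
    · rw [if_neg (fun h => ho (key.1 h))]
      have : o = true := by simpa using ho
      rw [this]; simp [sg]
  · exact rel_symm (ev0 a)
  · unfold rel
    rw [pr_insert, pr_insert]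
    have q1 : pr [a, b] a b = 1 := by simp [pr]
    have q2 : pr [b, a] a b = 0 := by simp [pr, hab]
    have q3 : [a, b].count a = [b, a].count a := by
      simp only [List.count_cons, List.count_nil]; ring
    have q4 : [a, b].count b = [b, a].count b := by
      simp only [List.count_cons, List.count_nil]; ring
    rw [q1, q2, q3, q4]
    simp only [ne_eq, hab', not_false_eq_true, true_and, Nat.odd_iff]
    omega
  · unfold rel
    rw [pr_insert, pr_insert]
    have q1 : pr [a, b] b a = 0 := by simp [pr, hab']
    have q2 : pr [b, a] b a = 1 := by simp [pr]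
    have q3 : [a, b].count a = [b, a].count a := by
      simp only [List.count_cons, List.count_nil]; ring
    have q4 : [a, b].count b = [b, a].count b := by
      simp only [List.count_cons, List.count_nil]; ring
    rw [q1, q2, q3, q4]
    simp only [ne_eq, hab, not_false_eq_true, true_and, Nat.odd_iff]
    omega
  · intro u v h3 h4
    unfold rel
    rw [pr_insert, pr_insert]
    have q3 : ∀ w, [a, b].count w = [b, a].count w := by
      intro w
      simp only [List.count_cons, List.count_nil]
      ring
    rw [q3, q3]
    by_cases huv : u = v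
    · simp [huv]
    · have q5 : pr [a, b] u v = pr [b, a] u v := by
        by_cases hu : a = u
        · subst hu
          have : ¬ b = v := fun h => h3 ⟨rfl, h.symm⟩
          simp [pr, this, hab]
        · by_cases hu' : b = u
          · subst hu'
            have : ¬ a = v := fun h => h4 ⟨rfl, h.symm⟩
            simp [pr, this, hab']
          · simp [pr, hu, hu']
      rw [q5]
  · intro u v hua hub hva hvb
    unfold rel
    rw [pr_ren_of_ne _ hva hvb hua hub, pr_insert]
    have hu1 : ¬ a = u := fun h => hua h.symm
    have hu2 : ¬ b = u := fun h => hub h.symm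
    have hv1 : ¬ a = v := fun h => hva h.symm
    have hv2 : ¬ b = v := fun h => hvb h.symm
    simp [pr, hu1, hu2, hv1, hv2]
  · intro u h3
    have := pr_left (((a :: lab s1) ++ lab s2).map (ren a b)) b u (count_ren_b hab' _)
    rw [rel, this] at h3
    exact absurd h3.2 (by simp)
  · intro u h3
    have := pr_right (((a :: lab s1) ++ lab s2).map (ren a b)) u b (count_ren_b hab' _)
    rw [rel, this] at h3
    exact absurd h3.2 (by simp)
  · exact fun h => h.1 rfl
  · exact fun h => h.1 rfl
  · exact fun h => h.1 rfl
  · intro v hva hvb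
    unfold rel
    rw [pr_ren_left hab' _ hva hvb, pr_insert, pr_insert]
    have hv1 : ¬ a = v := fun h => hva h.symm
    have hv2 : ¬ b = v := fun h => hvb h.symm
    have q1 : pr [b, a] a v = 0 := by simp [pr, hab]
    have q2 : pr [b, a] b v = 0 := by simp [pr, hab', hv1]
    have q3 : [b, a].count v = 0 := by simp [hv1, hv2]
    have q4 : [b, a].count a = 1 := by simp [hab]
    have q5 : [b, a].count b = 1 := by simp [hab']
    rw [q1, q2, q3, q4, q5]
    simp only [ne_eq, hv1, hv2, not_false_eq_true, true_and, Nat.odd_iff]
    omega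
  · intro v hva hvb
    exact ⟨rel_symm (ev0 a), rel_symm (ev0 b), rel_symm (ev2 a)⟩

theorem valid_swap {S : Finset L} {a b : L} (hab : b ≠ a)
    {o : Bool} {s1 s2 : List (L × Bool)}
    (h : Valid S ((a, false) :: (s1 ++ (b, o) :: (a, true) :: s2))) :
    Valid S ((a, false) :: (s1 ++ (a, true) :: (b, o) :: s2)) := by
  intro v
  rw [← h v]
  simp only [List.filter_cons, List.filter_append]
  by_cases hv : a = v
  · subst hv
    simp [hab]
  · by_cases hv' : b = v
    · subst hv'
      simp [hv]
    · simp [hv, hv']

theorem main_word {x d : A} (hd : d * x - x * d = 1) : ∀ (m : ℕ) (S : Finset L)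
    (s : List (L × Bool)), S.card = m → Valid S s →
    WW x d S s = ((-1) ^ Fintype.card L * (-1 / 2) ^ m * hh (rel (lab s))) • (1 : A) := by
  intro m
  induction m with
  | zero =>
    intro S s hS h
    have hS' : S = ∅ := Finset.card_eq_zero.1 hS
    subst hS'
    have hs : s = [] := by
      cases s with
      | nil => rfl
      | cons p t =>
        have := h p.1
        simp at this
    subst hs
    rw [hh_empty (by
      intro u v huv
      exact absurd huv.2 (by simp [lab, pr]))]
    unfold WW ev
    simp only [Finset.prod_empty, List.map_nil, List.prod_nil, one_smul, Finset.sum_const,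
      pow_zero, mul_one]
    rw [← mul_pow]
    norm_num
    rw [Algebra.smul_def]
    simp only [map_pow, mul_one]
    rw [show (algebraMap ℂ A) 2 = 2 from map_ofNat _ 2]
  | succ m ih =>
    intro S s hS h
    obtain ⟨a, ha, s1, s2, rfl, h1, h2⟩ := valid_cases h (Finset.card_pos.1 (by omega))
    have inner : ∀ (k : ℕ) (s1 s2 : List (L × Bool)), s1.length = k →
        Valid S ((a, false) :: (s1 ++ (a, true) :: s2)) →
        WW x d S ((a, false) :: (s1 ++ (a, true) :: s2)) =
          ((-1) ^ Fintype.card L * (-1 / 2) ^ (m + 1) *
            hh (rel (lab ((a, false) :: (s1 ++ (a, true) :: s2))))) • (1 : A) := by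
      intro k
      induction k with
      | zero =>
        intro s1 s2 hk h
        have : s1 = [] := List.length_eq_zero_iff.1 hk
        subst this
        rw [List.nil_append] at h ⊢
        have hv := valid_delete ha h
        rw [WW_delete hd ha h, ih (S.erase a) s2 (by rw [Finset.card_erase_of_mem ha]; omega) hv,
          smul_smul]
        congr 1
        have e : hh (rel (lab ((a, false) :: (a, true) :: s2))) = hh (rel (lab s2)) := by
          apply hh_congr
          intro u v
          have c0 : (lab s2).count a = 0 := by
            rw [hv.count, if_neg (by simp)]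
          unfold rel
          have e1 : lab ((a, false) :: (a, true) :: s2) = a :: a :: lab s2 := by simp [lab]
          rw [e1]
          by_cases huv : u = v
          · simp [huv]
          · by_cases hu : a = u
            · subst hu
              have hav : ¬ a = v := huv
              simp only [pr, if_true, List.count_cons_of_ne hav, pr_left _ _ _ c0]
              simp [huv, Nat.odd_iff]
              omega
            · simp [pr, hu]
        rw [e, pow_succ]
        ring
      | succ k ihk =>
        intro s1 s2 hk h
        rcases List.eq_nil_or_concat s1 with rfl | ⟨s1', p, rfl⟩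
        · simp at hk
        · obtain ⟨b, o⟩ := p
          rw [List.concat_eq_append] at hk h ⊢
          rw [List.append_assoc, List.singleton_append] at h ⊢
          have hba : b ≠ a := by
            intro hba
            subst hba
            have h3 := congrArg List.length (h b)
            rw [if_pos ha] at h3
            simp [List.filter_append] at h3
            omega
          have h' := valid_swap hba h
          have e1 := WW_exchange hd hba ha h
          have e2 := hh_exchange hba ha h h'
          have hk' : s1'.length = k := by simpa using hk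
          have e3 := ihk s1' ((b, o) :: s2) hk' h'
          obtain ⟨hb, _⟩ := valid_merge hba ha h
          have e4 := ih (S.erase b) (mrg a b s1' s2)
            (by rw [Finset.card_erase_of_mem hb]; omega) (valid_mrg hba ha h)
          rw [e3, e4, smul_smul, sub_eq_iff_eq_add, ← add_smul] at e1
          rw [e1]
          congr 1
          rw [pow_succ]
          linear_combination (-(-1 : ℂ) ^ Fintype.card L * (-1 / 2) ^ m * (-1 / 2)) * e2
    exact inner s1.length s1 s2 rfl h

end Eval

end Pool.Agent.R806.Osc
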